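import Pool.Agent.Helper37.UL.Star3

/-!
# Relative algebraic closedness and adjoining an algebraic element
-/

universe u v w

namespace Pool.Agent.TD

open Polynomial Pool.Agent.Helper37.UL

/-- The coefficients of a polynomial with values in `A` at `n` points of `A`. -/
theorem coeff_mem_of_values {S : Type u} [Field S] (A : Subfield S) {n : ℕ} {e : Fin n → S}
    (he : Function.Injective e) (heA : ∀ j, e j ∈ A) {s : Fin n → S}
    (hs : ∀ j, ∑ i : Fin n, e j ^ (i : ℕ) * s i ∈ A) (i : Fin n) : s i ∈ A := by
  let eA : Fin n → A := fun j => ⟨e j, heA j⟩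
  have heinj : Function.Injective eA := fun a b hab => he (congrArg Subtype.val hab)
  let L : (Fin n → A) →ₗ[A] (Fin n → A) :=
    { toFun := fun x j => ∑ i : Fin n, eA j ^ (i : ℕ) * x i
      map_add' := by
        intro x y
        funext j
        simp only [Pi.add_apply, mul_add, Finset.sum_add_distrib]
      map_smul' := by
        intro c x
        funext j
        simp only [Pi.smul_apply, smul_eq_mul, RingHom.id_apply, Finset.mul_sum]
        refine Finset.sum_congr rfl fun i _ => ?_
        ring }
  have hL : Function.Injective L := by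
    rw [injective_iff_map_eq_zero]
    intro x hx
    exact Matrix.eq_zero_of_forall_index_sum_pow_mul_eq_zero heinj fun j => congrFun hx j
  obtain ⟨x, hx⟩ := (LinearMap.injective_iff_surjective.1 hL) fun j => ⟨_, hs j⟩
  have h1 : (fun i => s i - (x i : S)) = 0 := by
    refine Matrix.eq_zero_of_forall_index_sum_pow_mul_eq_zero he fun j => ?_
    have h2 := congrArg (Subtype.val : A → S) (congrFun hx j)
    change ((∑ i : Fin n, eA j ^ (i : ℕ) * x i : A) : S) = ∑ i : Fin n, e j ^ (i : ℕ) * s i at h2
    push_cast at h2
    simp only [mul_sub, Finset.sum_sub_distrib]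
    rw [← h2, sub_self]
  have h2 := congrFun h1 i
  rw [Pi.zero_apply, sub_eq_zero] at h2
  rw [h2]
  exact (x i).2

variable {S : Type u} [Field S]

/-- **R0.** -/
theorem relClosed_adjoin [IsAlgClosed S] [CharZero S] {K M : Subfield S} (h0 : K ≤ M)
    (hrel : ∀ x ∈ M, IsAlgebraic K x → x ∈ K) {e : S} (he : IsAlgebraic K e) :
    ∀ x ∈ Subfield.closure ((M : Set S) ∪ {e}),
      IsAlgebraic (Subfield.closure ((K : Set S) ∪ {e})) x →
      x ∈ Subfield.closure ((K : Set S) ∪ {e}) := by
  classical
  intro x hx hxalg
  set n := (minpoly K e).natDegree with hn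
  obtain ⟨r, hr⟩ := exists_coords h0 he hn hx
  have hint := he.isIntegral
  -- the field of algebraic elements
  let A : Subfield S := (algebraicClosure K S).toSubfield
  have hA : ∀ y, y ∈ A ↔ IsAlgebraic K y := fun y => mem_algebraicClosure_iff
  have hKeA : Subfield.closure ((K : Set S) ∪ {e}) ≤ A := by
    rw [Subfield.closure_le, Set.union_subset_iff]
    refine ⟨fun y hy => (hA y).2 (isAlgebraic_algebraMap (⟨y, hy⟩ : K)), ?_⟩
    rintro _ rfl
    exact (hA _).2 he
  have hxA : x ∈ A := by
    have h1 : IsAlgebraic A x := isAlgebraic_mono hKeA hxalg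
    have h2 : IsAlgebraic (algebraicClosure K S) x := h1
    exact (hA x).2 (isIntegral_trans (R := K) (A := algebraicClosure K S) _
      h2.isIntegral).isAlgebraic
  -- the conjugates of `e`
  have hcard : ((minpoly K e).aroots S).toFinset.card = n := by
    rw [Multiset.toFinset_card_of_nodup, aroots_def]
    · rw [(splits_iff_card_roots.mp (IsAlgClosed.splits _)), natDegree_map, hn]
    · exact nodup_aroots_iff_of_splits (minpoly.ne_zero hint) (IsAlgClosed.splits _) |>.mpr
        (minpoly.irreducible hint).separable
  let E := ((minpoly K e).aroots S).toFinset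
  let ε : Fin n ≃ E := (Finset.equivFinOfCardEq hcard).symm
  have hεroot : ∀ j, aeval (ε j : S) (minpoly K e) = 0 := by
    intro j
    have h1 := (ε j).2
    rw [Multiset.mem_toFinset, mem_aroots] at h1
    exact h1.2
  have hσ : ∀ j, ∃ σ : S ≃+* S, (∀ y ∈ M, σ y = y) ∧ σ e = ε j := by
    intro j
    have h1 := root_minpoly h0 hrel he (hεroot j)
    exact exists_aut (K := M) (isAlgebraic_mono h0 he).isIntegral h1
  choose σ hσM hσe using hσ
  have hcoef : ∀ i, (r i : S) ∈ A := by
    refine coeff_mem_of_values A (e := fun j => (ε j : S)) ?_ ?_ ?_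
    · intro a b hab
      exact ε.injective (Subtype.ext hab)
    · intro j
      rw [hA]
      exact ⟨minpoly K e, minpoly.ne_zero hint, hεroot j⟩
    · intro j
      have h1 : ∑ i : Fin n, (ε j : S) ^ (i : ℕ) * (r i : S) = σ j x := by
        rw [hr, map_sum]
        refine Finset.sum_congr rfl fun i _ => ?_
        rw [map_mul, map_pow, hσe, hσM j _ (r i).2, mul_comm]
      rw [h1, hA]
      have h2 := (hA x).1 hxA
      obtain ⟨q, hq0, hq⟩ := h2
      refine ⟨q, hq0, ?_⟩
      rw [← map_aeval (fun y hy => hσM j y (h0 hy)), hq, map_zero]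
  rw [hr]
  refine Subfield.sum_mem _ fun i _ => Subfield.mul_mem _ ?_ (Subfield.pow_mem _ ?_ _)
  · exact Subfield.subset_closure (Or.inl (hrel _ (r i).2 ((hA _).1 (hcoef i))))
  · exact Subfield.subset_closure (Or.inr rfl)

section up

variable {ι : Type v} {U : Ultrafilter ι} {C : Type u} [Field C] {S : Type w} [Field S]
  {π : (ι → C) →+* S} (h : UP U π)

include h in
/-- Germs of functions with values in a simple algebraic extension. -/
theorem gsub_adjoin {X : Subfield C} {e : C} (he : IsAlgebraic X e) :
    h.gsub (Subfield.closure ((X : Set C) ∪ {e})) =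
      Subfield.closure (((h.gsub X : Subfield S) : Set S) ∪ {UP.cst π e}) := by
  apply le_antisymm
  · rintro _ ⟨f, hf, rfl⟩
    have hint := he.isIntegral
    have hb : e ^ (minpoly X e).natDegree + ∑ i : Fin (minpoly X e).natDegree,
        (((minpoly X e).coeff i : X) : C) * e ^ (i : ℕ) = 0 := by
      have h1 := minpoly.aeval X e
      rw [aeval_eq_sum_range, Finset.sum_range_succ, Algebra.smul_def] at h1
      have h2 : (minpoly X e).coeff (minpoly X e).natDegree = 1 :=
        (minpoly.monic hint).coeff_natDegree
      rw [h2, map_one, one_mul, Finset.sum_range, add_comm] at h1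
      exact h1
    have hr : ∀ a, ∃ r : Fin (minpoly X e).natDegree → C, (∀ i, r i ∈ X) ∧
        f a = ∑ i, r i * e ^ (i : ℕ) := fun a =>
      exists_powers (fun i => Subtype.coe_prop _) hb (hf a)
    choose r hr hfr using hr
    have h1 : f = ∑ i, (fun a => r a i) * (fun _ => e) ^ (i : ℕ) := by
      funext a
      rw [hfr, Finset.sum_apply]
      rfl
    rw [h1, map_sum]
    refine Subfield.sum_mem _ fun i _ => ?_
    rw [map_mul, map_pow]
    refine Subfield.mul_mem _ (Subfield.subset_closure (Or.inl ?_)) (Subfield.pow_mem _ ?_ _)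
    · exact ⟨fun a => r a i, fun a => hr a i, rfl⟩
    · exact Subfield.subset_closure (Or.inr rfl)
  · rw [Subfield.closure_le, Set.union_subset_iff]
    refine ⟨h.gsub_mono fun x hx => Subfield.subset_closure (Or.inl hx), ?_⟩
    rintro _ rfl
    exact h.const_mem_gsub.mpr (Subfield.subset_closure (Or.inr rfl))

end up

end Pool.Agent.TD
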