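import Pool.Agent.Helper37.UL.StubF

/-!
# Bounded data over fields of transcendence degree one

`k` a subfield of the algebraically closed field `C`, `κ` an algebraically closed subfield of `C`, `T'`
transcendental over `κ`, `k ⊆ κ(T')`.
-/

set_option linter.unusedVariables false

universe u

namespace Pool.Agent.TD

open Polynomial Pool.Agent.Helper91.Sect Pool.Agent.Helper37.UL VC FF IntermediateField

/-- **Bounded data**, abstract form. -/
theorem data_core (d m p : ℕ) (hp : p.Prime) (hd : 3 ≤ d) : ∃ B : ℕ, 0 < B ∧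
    ∀ {k C : Type u} [Field k] [CharZero k] [Field C] [Algebra k C] [IsAlgClosure k C]
      (κ : Subfield C) (hcl : IsAlgClosed κ) {T' : C} (htr : Transcendental κ T')
      (hk : ∀ x : k, algebraMap k C x ∈ IntermediateField.adjoin κ {T'})
      (A : Fin (d + 1) → Fin (m + 1) → κ)
      {θ : Fin d → C} {z : Fin d → Fin d → C} {α : C}
      (hlev : Lev (algebraMap k C).fieldRange p
        (fun i => ∑ l, (A i l : C) * T' ^ (l : ℕ)) θ z α)
      (hin : ∀ V : ValuationSubring C, (∀ c ∈ κ, c ∈ V) →
        GoodAt V (fun i => ∑ l, (A i l : C) * T' ^ (l : ℕ)) θ →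
        ∀ σ : C ≃+* C, Inert (algebraMap k C).fieldRange V σ →
          ∀ i j, i ≠ j → σ (z i j) = z i j)
      (i j : Fin d) (hij : i ≠ j),
      Data κ (Subfield.closure ((κ : Set C) ∪ {T'})) T' d p B
        (fun i l => (A i l : C)) (θ i) (θ j) (z i j) := by
  classical
  obtain ⟨B₀, hB₀⟩ := exists_bounded.{u} d m ((d + (d - 1)) * m) p hp.pos
  refine ⟨B₀ + 1, Nat.succ_pos _, ?_⟩
  intro k C _ _ _ _ _ κ hcl T' htr hk A θ z α hlev hin i j hij
  have hCa : IsAlgClosed C := IsAlgClosure.isAlgClosed k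
  have hC0 : CharZero C := charZero_of_injective_algebraMap (algebraMap k C).injective
  have hroot : ∀ j, ∑ i, (∑ l, (A i l : C) * T' ^ (l : ℕ)) * θ j ^ (i : ℕ) = 0 := hlev.root
  have hlead : ∑ l, (A (Fin.last d) l : C) * T' ^ (l : ℕ) ≠ 0 := hlev.lead
  let f : κ[X][X] := _root_.UL.fam A
  let bad : κ[X] := _root_.UL.RR d f
  have hbadT : aeval T' bad ≠ 0 := by
    have h1 : aeval T' bad = _root_.UL.RR d
        (_root_.UL.spec fun i => ∑ l, (A i l : C) * T' ^ (l : ℕ)) := by
      have h2 := _root_.UL.fam_map A (algebraMap κ C) T'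
      have h3 := _root_.UL.RR_map d f (eval₂RingHom (algebraMap κ C) T')
      rw [h2] at h3
      exact h3.symm
    rw [h1]
    exact _root_.UL.RR_spec_ne_zero (by omega) hlead hlev.inj hroot
  have hbad0 : bad ≠ 0 := by
    intro h
    rw [h, map_zero] at hbadT
    exact hbadT rfl
  have hbadd : bad.natDegree ≤ (d + (d - 1)) * m :=
    _root_.UL.natDegree_RR_le (_root_.UL.coeff_fam_natDegree A)
  have hf0 : f ≠ 0 := by
    intro h
    apply hlead
    have h2 := _root_.UL.fam_map A (algebraMap κ C) T'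
    have h3 : _root_.UL.fam A = 0 := h
    rw [h3, Polynomial.map_zero] at h2
    have h4 := _root_.UL.coeff_spec (fun i => ∑ l, (A i l : C) * T' ^ (l : ℕ)) (Fin.last d)
    rw [← h4]
    have h5 : (_root_.UL.spec fun i => ∑ l, (A i l : C) * T' ^ (l : ℕ)) = 0 := h2.symm
    rw [h5, coeff_zero]
  -- the function field
  let M : IntermediateField κ C := IntermediateField.adjoin κ {T', θ i, θ j}
  have hTM : T' ∈ M := IntermediateField.subset_adjoin _ _ (by simp)
  have hiM : θ i ∈ M := IntermediateField.subset_adjoin _ _ (by simp)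
  have hjM : θ j ∈ M := IntermediateField.subset_adjoin _ _ (by simp)
  let tM : M := ⟨T', hTM⟩
  let xM : M := ⟨θ i, hiM⟩
  let yM : M := ⟨θ j, hjM⟩
  have hκM : ∀ c ∈ κ, c ∈ M := fun c hc => M.algebraMap_mem ⟨c, hc⟩
  have hkM : ∀ x : k, algebraMap k C x ∈ M := fun x => by
    have h1 : IntermediateField.adjoin κ {T'} ≤ M := by
      rw [IntermediateField.adjoin_simple_le_iff]
      exact hTM
    exact h1 (hk x)
  have htM : Transcendental κ tM := by
    intro h
    exact htr (h.algebraMap (A := C))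
  have hgen : IntermediateField.adjoin κ {tM, xM, yM} = ⊤ := by
    apply IntermediateField.lift_injective M
    rw [IntermediateField.lift_adjoin, IntermediateField.lift_top]
    rw [Set.image_insert_eq, Set.image_insert_eq, Set.image_singleton]
  have hfx : ∀ (j : Fin d) (hj : θ j ∈ M),
      eval₂ (aeval tM : κ[X] →ₐ[κ] M).toRingHom (⟨θ j, hj⟩ : M) f = 0 := by
    intro j hj
    have h1 : eval₂ (aeval tM : κ[X] →ₐ[κ] M).toRingHom (⟨θ j, hj⟩ : M) f =
        (f.map (aeval tM : κ[X] →ₐ[κ] M).toRingHom).eval (⟨θ j, hj⟩ : M) := by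
      rw [eval_map]
    have h2 : (f.map (aeval tM : κ[X] →ₐ[κ] M).toRingHom) =
        _root_.UL.spec fun i => ∑ l, algebraMap κ M (A i l) * tM ^ (l : ℕ) :=
      _root_.UL.fam_map A (algebraMap κ M) tM
    rw [h1, h2, _root_.UL.eval_spec]
    apply M.val.injective
    rw [map_sum, map_zero, ← hroot j]
    refine Finset.sum_congr rfl fun i _ => ?_
    rw [map_mul, map_sum, map_pow]
    rfl
  have hFM : IsFunctionField κ M := _root_.UL.isFunctionField_of_gen htM hgen (by omega) hf0
    (_root_.UL.natDegree_fam A) (_root_.UL.coeff_fam_natDegree A) (hfx i hiM) (hfx j hjM)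
  have hδM : z i j ^ p ∈ M := by
    obtain ⟨φ, hφ, hz⟩ := hlev.pow
    rw [hz i j hij]
    refine sum_mem fun r _ => sum_mem fun s _ => ?_
    obtain ⟨x, hx⟩ := hφ r s
    rw [← hx]
    exact mul_mem (hkM x) (mul_mem (pow_mem hiM _) (pow_mem hjM _))
  let δ : M := ⟨z i j ^ p, hδM⟩
  have hz0 : z i j ≠ 0 := hlev.ne i j hij
  have hδ0 : δ ≠ 0 := by
    intro h
    exact pow_ne_zero p hz0 (congrArg Subtype.val h)
  -- `C` is an algebraic closure of `M`
  have hCM : IsAlgClosure M C := by
    let _ : Algebra k M := ((algebraMap k C).codRestrict M.toSubring hkM).toAlgebra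
    have : IsScalarTower k M C := IsScalarTower.of_algebraMap_eq fun _ => rfl
    have h1 : Algebra.IsAlgebraic k C := IsAlgClosure.isAlgebraic
    exact ⟨hCa, Algebra.IsAlgebraic.tower_top (K := k) M⟩
  have hM0 : CharZero M := charZero_of_injective_algebraMap (algebraMap κ M).injective
  -- the divisibility
  have hdvd : ∀ (P : Place κ M) (t₀ : κ), tM - algebraMap κ M t₀ ∈ P.ring.nonunits →
      bad.eval t₀ ≠ 0 → (p : ℤ) ∣ ord P.ring δ := by
    intro P t₀ hP ht₀
    by_contra hord
    obtain ⟨V, τ, hV1, hV2, hV3, hV4, hτ⟩ := _root_.UL.exists_inert (C := C) hFM P hp hδ0 hord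
      (w := z i j) rfl
    apply hτ
    have hκV : ∀ c ∈ κ, c ∈ V := fun c hc => hV1 _ (P.algebraMap_mem ⟨c, hc⟩)
    have hgood := _root_.UL.goodAt_of hκV (by omega) A (T' := T') (t₀ := t₀) (hV2 _ hP) ht₀
      hlev.inj hroot
    refine hin V hκV hgood τ.toRingEquiv ⟨?_, hV3, hV4⟩ i j hij
    rintro _ ⟨x, rfl⟩
    exact τ.commutes ⟨algebraMap k C x, hkM x⟩
  obtain ⟨g₁, g₂, hg₁, hg₂, hb1, hb2, χ₁, χ₂, hχ₁, hχ₂, hd₁, hd₂, hc₁, hc₂, he₁, he₂, hor⟩ :=
    hB₀ htM hgen hf0 hf0 (_root_.UL.natDegree_fam A) (_root_.UL.natDegree_fam A)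
      (_root_.UL.coeff_fam_natDegree A) (_root_.UL.coeff_fam_natDegree A) (hfx i hiM) (hfx j hjM)
      hbad0 hbadd hδ0 hdvd
  obtain ⟨G, hG1, hG2⟩ := _root_.UL.exists_G htM hgen (by omega) hf0
    (_root_.UL.natDegree_fam A) (_root_.UL.coeff_fam_natDegree A) (hfx i hiM) (hfx j hjM) g₁
  obtain ⟨c, hc, hceq, hcv⟩ := _root_.UL.exists_coeffs (B := B₀ + 1) hχ₁ (by omega)
    (fun i => (hc₁ i).trans (by omega)) he₁
  obtain ⟨e, he, heeq, hev⟩ := _root_.UL.exists_coeffs (B := B₀ + 1) hχ₂ (by omega)
    (fun i => (hc₂ i).trans (by omega)) he₂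
  have e1 : ((δ * g₁ ^ p : M) : C) = (z i j * (g₁ : C)) ^ p := by
    rw [mul_pow]; rfl
  have e2 : ((δ * g₂ ^ p : M) : C) = (z i j * (g₁ : C) * ((g₂ / g₁ : M) : C)) ^ p := by
    have h1 : (g₁ : C) * ((g₂ / g₁ : M) : C) = (g₂ : C) := by
      have h2 : g₁ * (g₂ / g₁) = g₂ := mul_div_cancel₀ g₂ hg₁
      exact congrArg Subtype.val h2
    rw [mul_assoc, h1, mul_pow]; rfl
  refine ⟨(g₁ : C), ((g₂ / g₁ : M) : C), fun i j => (G i j : C), c, e, ?_, ?_, ?_, ?_, ?_, ?_, hc, he,
    ?_, ?_, ?_⟩
  · intro h; exact hg₁ (Subtype.ext h)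
  · intro h; exact div_ne_zero hg₂ hg₁ (Subtype.ext h)
  · intro r s
    have h1 : (κ⟮tM⟯ : IntermediateField κ M).toSubfield ≤
        (Subfield.closure ((κ : Set C) ∪ {T'})).comap M.val.toRingHom := by
      rw [IntermediateField.adjoin_toSubfield, Subfield.closure_le]
      rintro x (⟨y, rfl⟩ | hx)
      · exact Subfield.subset_closure (Or.inl y.2)
      · rw [Set.mem_singleton_iff.mp hx]
        exact Subfield.subset_closure (Or.inr rfl)
    exact h1 (hG1 r s)
  · have h1 := congrArg (M.val : M → C) hG2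
    change (g₁ : C) = _ at h1
    rw [h1, map_sum]
    refine Finset.sum_congr rfl fun r _ => ?_
    rw [map_sum]
    rfl
  · rw [← e1]
    exact _root_.UL.cpx_of_bdd (by omega) hb1
  · exact _root_.UL.cpx_of_bdd (by omega) hb2
  · rw [← e1]; exact hceq
  · rw [← e2]; exact heeq
  · intro t₀ ht₀ hgood i hi
    obtain ⟨hl, r, hr, hrκ, hrr⟩ := hgood
    let s₀ : κ := ⟨t₀, ht₀⟩
    have hb : bad.eval s₀ ≠ 0 := by
      have h2 := _root_.UL.fam_map A (RingHom.id κ) s₀
      have h3 := _root_.UL.RR_map d f (eval₂RingHom (RingHom.id κ) s₀)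
      rw [h2] at h3
      have h4 : bad.eval s₀ = _root_.UL.RR d
          (_root_.UL.spec fun i => ∑ l, RingHom.id κ (A i l) * s₀ ^ (l : ℕ)) := h3.symm
      rw [h4]
      refine _root_.UL.RR_spec_ne_zero (by omega) ?_ (r := fun j => ⟨r j, hrκ j⟩) ?_ ?_
      · intro h
        apply hl
        have h5 := congrArg (κ.subtype) h
        rw [map_sum, map_zero] at h5
        rw [← h5]
        refine Finset.sum_congr rfl fun l _ => ?_
        rw [map_mul, map_pow]
        rfl
      · intro j j' h
        exact hr (congrArg Subtype.val h)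
      · intro j
        apply κ.subtype.injective
        rw [map_sum, map_zero, ← hrr j]
        refine Finset.sum_congr rfl fun i _ => ?_
        rw [map_mul, map_sum, map_pow]
        rfl
    rcases hor s₀ hb with h | h
    · exact Or.inl (hcv s₀ h i hi)
    · exact Or.inr (hev s₀ h i hi)

section one

variable {F k C : Type u} [Field F] [CharZero F] [Field k] [Algebra F k] [Field C] [Algebra k C]
  [IsAlgClosure k C] [Algebra F C] [IsScalarTower F k C]

omit [CharZero F] [IsAlgClosure k C] in
theorem isAlgebraic_range_iff {c : C} :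
    IsAlgebraic (algebraMap F C).fieldRange c ↔ IsAlgebraic F c := by
  constructor
  · intro h
    let e : F ≃+* (algebraMap F C).fieldRange := RingEquiv.ofBijective (algebraMap F C).rangeRestrictField
      ⟨(algebraMap F C).rangeRestrictField.injective, fun x => by
        obtain ⟨y, hy⟩ := x.2
        exact ⟨y, Subtype.ext hy⟩⟩
    obtain ⟨q, hq0, hq⟩ := h
    refine ⟨q.map e.symm.toRingHom, (Polynomial.map_ne_zero_iff e.symm.injective).2 hq0, ?_⟩
    have h1 : (algebraMap F C).comp e.symm.toRingHom = algebraMap (algebraMap F C).fieldRange C := by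
      refine RingHom.ext fun x => ?_
      obtain ⟨y, rfl⟩ := e.surjective x
      change algebraMap F C (e.symm (e y)) = (e y : C)
      rw [e.symm_apply_apply]
      rfl
    rw [aeval_def, eval₂_map, h1, ← aeval_def]
    exact hq
  · rintro ⟨q, hq0, hq⟩
    refine ⟨q.map (algebraMap F C).rangeRestrictField, (Polynomial.map_ne_zero_iff
      (algebraMap F C).rangeRestrictField.injective).2 hq0, ?_⟩
    rw [aeval_def, eval₂_map]
    exact hq

omit [CharZero F] [IsScalarTower F k C] [Algebra F k] in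
include k in
variable (k) in
theorem kappa_closed_one {κ : Subfield C} (hκ : ∀ c : C, c ∈ κ ↔ IsAlgebraic F c) :
    IsAlgClosed κ := by
  have hC : IsAlgClosed C := IsAlgClosure.isAlgClosed k
  have h1 : IsAlgClosed (algebraicClosure F C) := (algebraicClosure.isAlgClosure F C).isAlgClosed
  have h2 : κ = (algebraicClosure F C).toSubfield := by
    ext c
    rw [hκ]
    exact mem_algebraicClosure_iff.symm
  rw [h2]
  exact h1

omit [CharZero F] [IsAlgClosure k C] in
theorem kappa_transc_one {κ : Subfield C} (hκ : ∀ c : C, c ∈ κ ↔ IsAlgebraic F c) {T : k}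
    (hT : Transcendental F T) : Transcendental κ (algebraMap k C T) := by
  have h1 : κ = (algebraicClosure F C).toSubfield := by
    ext c
    rw [hκ]
    exact mem_algebraicClosure_iff.symm
  have h2 : Transcendental F (algebraMap k C T) := by
    intro h
    apply hT
    exact (isAlgebraic_algebraMap_iff (algebraMap k C).injective).1 h
  intro h
  subst h1
  have h3 : IsAlgebraic (algebraicClosure F C) (algebraMap k C T) := h
  apply h2
  exact (isIntegral_trans (R := F) (A := algebraicClosure F C) _ h3.isIntegral).isAlgebraic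

omit [IsAlgClosure k C] in
theorem natCast_residue_ne_zero_one {V : ValuationSubring C} (hFV : ∀ c : F, algebraMap F C c ∈ V)
    {p : ℕ} (hp : p ≠ 0) :
    ((p : ℕ) : IsLocalRing.ResidueField (V.comap (algebraMap k C))) ≠ 0 := by
  let f : F →+* V.comap (algebraMap k C) := (algebraMap F k).codRestrict
    (V.comap (algebraMap k C)).toSubring (fun c => by
      have h1 := hFV c
      rw [IsScalarTower.algebraMap_apply F k C] at h1
      exact h1)
  let φ : F →+* IsLocalRing.ResidueField (V.comap (algebraMap k C)) :=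
    (IsLocalRing.residue _).comp f
  rw [← map_natCast φ p]
  exact (_root_.map_ne_zero φ).mpr (Nat.cast_ne_zero.mpr hp)

end one

/-- **Bounded data over `F(T)`.** -/
theorem exists_data_one (d m p : ℕ) (hp : p.Prime) (hd : 3 ≤ d) : ∃ B : ℕ, 0 < B ∧
    ∀ {F k C : Type u} [Field F] [CharZero F] [Field k] [Algebra F k] [Field C] [Algebra k C]
      [IsAlgClosure k C] [Algebra F C] [IsScalarTower F k C]
      (hF : ∃ S : Finset F, Subfield.closure (S : Set F) = ⊤)
      {T : k} (hT : Transcendental F T) (htop : IntermediateField.adjoin F {T} = ⊤)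
      (κ : Subfield C) (hκ : ∀ c : C, c ∈ κ ↔ IsAlgebraic F c)
      (a : Fin (d + 1) → Fin (m + 1) → F)
      {θ : Fin d → C} {z : Fin d → Fin d → C} {α : C}
      (hlev : Lev (algebraMap k C).fieldRange p
        (fun i => algebraMap k C (∑ l, algebraMap F k (a i l) * T ^ (l : ℕ))) θ z α)
      (hin : ∀ V : ValuationSubring C,
        HasPlaces (IsLocalRing.ResidueField (V.comap (algebraMap k C))) →
        ((p : ℕ) : IsLocalRing.ResidueField (V.comap (algebraMap k C))) ≠ 0 →
        GoodAt V (fun i => algebraMap k C (∑ l, algebraMap F k (a i l) * T ^ (l : ℕ))) θ →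
        ∀ σ : C ≃+* C, Inert (algebraMap k C).fieldRange V σ →
          ∀ i j, i ≠ j → σ (z i j) = z i j)
      (i j : Fin d) (hij : i ≠ j),
      Data κ (Subfield.closure ((κ : Set C) ∪ {algebraMap k C T})) (algebraMap k C T) d p B
        (fun i l => algebraMap F C (a i l)) (θ i) (θ j) (z i j) := by
  obtain ⟨B, hB0, hB⟩ := data_core.{u} d m p hp hd
  refine ⟨B, hB0, ?_⟩
  intro F k C _ _ _ _ _ _ _ _ _ hF T hT htop κ hκ a θ z α hlev hin i j hij
  have hk0 : CharZero k := charZero_of_injective_algebraMap (algebraMap F k).injective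
  have hFκ : ∀ c : F, algebraMap F C c ∈ κ := fun c => (hκ _).2 (isAlgebraic_algebraMap c)
  have hk : ∀ x : k, algebraMap k C x ∈ IntermediateField.adjoin κ {algebraMap k C T} := by
    intro x
    have h1 : (IntermediateField.adjoin F {T} : IntermediateField F k).toSubfield ≤
        (IntermediateField.adjoin κ {algebraMap k C T}).toSubfield.comap (algebraMap k C) := by
      rw [IntermediateField.adjoin_toSubfield, Subfield.closure_le]
      rintro x (⟨y, rfl⟩ | hx)
      · change algebraMap k C (algebraMap F k y) ∈ IntermediateField.adjoin κ {algebraMap k C T}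
        rw [← IsScalarTower.algebraMap_apply F k C]
        exact (IntermediateField.adjoin κ {algebraMap k C T}).algebraMap_mem ⟨_, hFκ y⟩
      · rw [Set.mem_singleton_iff.mp hx]
        exact IntermediateField.mem_adjoin_simple_self κ _
    rw [htop] at h1
    exact h1 (Subfield.mem_top x)
  have hcoef : (fun i => algebraMap k C (∑ l, algebraMap F k (a i l) * T ^ (l : ℕ))) =
      fun i : Fin (d + 1) => ∑ l : Fin (m + 1), (((⟨algebraMap F C (a i l), hFκ _⟩ : κ) : C)) *
        (algebraMap k C T) ^ (l : ℕ) := by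
    funext i
    rw [map_sum]
    refine Finset.sum_congr rfl fun l _ => ?_
    rw [map_mul, map_pow, ← IsScalarTower.algebraMap_apply F k C]
  rw [hcoef] at hlev hin
  refine hB κ (kappa_closed_one k hκ) (kappa_transc_one hκ hT) hk
    (fun i l => ⟨algebraMap F C (a i l), hFκ _⟩) hlev ?_ i j hij
  intro V hκV hgood σ hσ
  refine hin V ?_ (natCast_residue_ne_zero_one (F := F) (fun c => hκV _ (hFκ c)) hp.ne_zero)
    hgood σ hσ
  obtain ⟨S, hS⟩ := Pool.Agent.SC.residueField_fg hF T htop (O := V.comap (algebraMap k C))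
    (fun c => by
      have h1 := hκV _ (hFκ c)
      rw [IsScalarTower.algebraMap_apply F k C] at h1
      exact h1)
  exact hasPlaces_of_closure hS

end Pool.Agent.TD
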