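import Pool.Agent.Helper13.TD.DCR
import Pool.Agent.Helper13.TD.D1
import Pool.Agent.Helper13.LG.G3

/-!
# Bounded data over function fields of one variable, 2
-/

set_option linter.unusedVariables false

universe u

namespace Pool.Agent.TD

open Polynomial Pool.Agent.Helper91.Sect Pool.Agent.Helper37.UL VC FF IntermediateField

/-- Polynomial relations of algebraic elements. -/
theorem exists_poly_rel {κ C : Type u} [Field κ] [Field C] [Algebra κ C] {T x : C}
    (hT : Transcendental κ T) (hx : IsAlgebraic (IntermediateField.adjoin κ {T}) x) :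
    ∃ b : κ[X][X], b ≠ 0 ∧ eval₂ (aeval T : κ[X] →ₐ[κ] C).toRingHom x b = 0 := by
  classical
  obtain ⟨q, hq0, hq⟩ := hx
  have htr := transcendental_iff.mp hT
  have hrs : ∀ i, ∃ r s : κ[X], aeval T s ≠ 0 ∧ (q.coeff i : C) * aeval T s = aeval T r := by
    intro i
    obtain ⟨r, s, hrs⟩ := (mem_adjoin_simple_iff κ _).1 (q.coeff i).2
    by_cases hs : aeval T s = 0
    · refine ⟨0, 1, by rw [map_one]; exact one_ne_zero, ?_⟩
      rw [hrs, hs, div_zero, zero_mul, map_zero]
    · exact ⟨r, s, hs, by rw [hrs, div_mul_cancel₀ _ hs]⟩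
  choose r s hs hrs using hrs
  let n := q.natDegree
  let N := ∏ j ∈ Finset.range (n + 1), aeval T (s j)
  have hN : N ≠ 0 := Finset.prod_ne_zero_iff.2 fun j _ => hs j
  let b : κ[X][X] := ∑ i ∈ Finset.range (n + 1), Polynomial.C (r i *
    ∏ j ∈ (Finset.range (n + 1)).erase i, s j) * X ^ i
  have hco : ∀ i ∈ Finset.range (n + 1), aeval T (r i * ∏ j ∈ (Finset.range (n + 1)).erase i, s j) =
      N * (q.coeff i : C) := by
    intro i hi
    rw [map_mul, ← hrs i, map_prod]
    have h1 : N = aeval T (s i) * ∏ j ∈ (Finset.range (n + 1)).erase i, aeval T (s j) :=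
      (Finset.mul_prod_erase _ _ hi).symm
    rw [h1]
    ring
  refine ⟨b, ?_, ?_⟩
  · intro h0
    have h1 : b.coeff n = r n * ∏ j ∈ (Finset.range (n + 1)).erase n, s j := by
      simp only [b, finsetSum_coeff, coeff_C_mul_X_pow]
      rw [Finset.sum_eq_single n]
      · rw [if_pos rfl]
      · intro i _ hi
        rw [if_neg (fun h => hi h.symm)]
      · intro h
        exact absurd (Finset.mem_range.2 (Nat.lt_succ_self n)) h
    rw [h0, coeff_zero] at h1
    have h2 := hco n (Finset.mem_range.2 (Nat.lt_succ_self n))
    rw [← h1, map_zero] at h2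
    rcases mul_eq_zero.1 h2.symm with h | h
    · exact hN h
    · have h3 : q.coeff n = 0 := Subtype.ext h
      exact leadingCoeff_ne_zero.2 hq0 h3
  · simp only [b, eval₂_finsetSum, eval₂_mul, eval₂_C, eval₂_pow, eval₂_X]
    rw [aeval_eq_sum_range] at hq
    have h1 : ∀ i ∈ Finset.range (n + 1), (aeval T : κ[X] →ₐ[κ] C).toRingHom (r i *
        ∏ j ∈ (Finset.range (n + 1)).erase i, s j) * x ^ i = N * (q.coeff i • x ^ i) := by
      intro i hi
      change aeval T _ * x ^ i = _
      rw [hco i hi, mul_assoc, Algebra.smul_def]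
      rfl
    rw [Finset.sum_congr rfl h1, ← Finset.mul_sum, hq, mul_zero]

/-- **Bounded data over a function field of one variable.** -/
theorem exists_dataR {F k C : Type u} [Field F] [CharZero F] [Field k] [Algebra F k] [Field C]
    [Algebra k C] [IsAlgClosure k C] [Algebra F C] [IsScalarTower F k C]
    (hF : ∃ S : Finset F, Subfield.closure (S : Set F) = ⊤)
    {T : k} (hT : Transcendental F T) {ϑ : k} (hϑ : IsAlgebraic (IntermediateField.adjoin F {T}) ϑ)
    (htop : IntermediateField.adjoin F {T, ϑ} = ⊤)
    (κ : Subfield C) (hκ : ∀ c : C, c ∈ κ ↔ IsAlgebraic F c)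
    (d m p : ℕ) (hp : p.Prime) (hd : 3 ≤ d) : ∃ D B : ℕ, 0 < B ∧ d ≤ D ∧
      ∀ (a : Fin (d + 1) → Fin (m + 1) → F) {θ : Fin d → C} {z : Fin d → Fin d → C} {α : C}
      (hlev : Lev (algebraMap k C).fieldRange p
        (fun i => algebraMap k C (∑ l, algebraMap F k (a i l) * T ^ (l : ℕ))) θ z α)
      (hin : ∀ V : ValuationSubring C,
        HasPlaces (IsLocalRing.ResidueField (V.comap (algebraMap k C))) →
        ((p : ℕ) : IsLocalRing.ResidueField (V.comap (algebraMap k C))) ≠ 0 →
        GoodAt V (fun i => algebraMap k C (∑ l, algebraMap F k (a i l) * T ^ (l : ℕ))) θ →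
        ∀ σ : C ≃+* C, Inert (algebraMap k C).fieldRange V σ →
          ∀ i j, i ≠ j → σ (z i j) = z i j)
      (i j : Fin d) (hij : i ≠ j),
      DataR κ (Subfield.closure ((κ : Set C) ∪ {algebraMap k C T})) (algebraMap k C T) D d p B
        (fun i l => algebraMap F C (a i l)) ![algebraMap k C ϑ, θ i, θ j] (z i j) := by
  have hk0 : CharZero k := charZero_of_injective_algebraMap (algebraMap F k).injective
  have hCa : IsAlgClosed C := IsAlgClosure.isAlgClosed k
  have hFκ : ∀ c : F, algebraMap F C c ∈ κ := fun c => (hκ _).2 (isAlgebraic_algebraMap c)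
  have htr := kappa_transc_one hκ hT
  -- the relation of `ϑ`
  have hϑ' : IsAlgebraic (IntermediateField.adjoin κ {algebraMap k C T}) (algebraMap k C ϑ) := by
    let φ : IntermediateField.adjoin F {T} →+* IntermediateField.adjoin κ {algebraMap k C T} :=
      ((algebraMap k C).comp (algebraMap (IntermediateField.adjoin F {T}) k)).codRestrict
        (IntermediateField.adjoin κ {algebraMap k C T}).toSubfield.toSubring (fun x => by
          have h1 : (IntermediateField.adjoin F {T} : IntermediateField F k).toSubfield ≤
              (IntermediateField.adjoin κ {algebraMap k C T}).toSubfield.comap (algebraMap k C) := by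
            rw [IntermediateField.adjoin_toSubfield, Subfield.closure_le]
            rintro x (⟨y, rfl⟩ | hx)
            · change algebraMap k C (algebraMap F k y) ∈ IntermediateField.adjoin κ {algebraMap k C T}
              rw [← IsScalarTower.algebraMap_apply F k C]
              exact (IntermediateField.adjoin κ {algebraMap k C T}).algebraMap_mem ⟨_, hFκ y⟩
            · rw [Set.mem_singleton_iff.mp hx]
              exact IntermediateField.mem_adjoin_simple_self κ _
          exact h1 x.2)
    obtain ⟨q, hq0, hq⟩ := hϑ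
    refine ⟨q.map φ, (Polynomial.map_ne_zero_iff φ.injective).2 hq0, ?_⟩
    rw [aeval_def, eval₂_map]
    have h1 := congrArg (algebraMap k C) hq
    rw [map_zero, aeval_def, hom_eval₂] at h1
    exact h1
  obtain ⟨b, hb, hbϑ⟩ := exists_poly_rel htr hϑ'
  let m' := m + ∑ i ∈ b.support, (b.coeff i).natDegree
  have hbm : ∀ i, (b.coeff i).natDegree ≤ m' := by
    intro i
    by_cases hi : i ∈ b.support
    · have h1 := Finset.single_le_sum (f := fun i => (b.coeff i).natDegree)
        (fun i _ => Nat.zero_le _) hi
      exact h1.trans (Nat.le_add_left _ _)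
    · rw [notMem_support_iff.1 hi, natDegree_zero]
      exact Nat.zero_le _
  obtain ⟨B, hB0, hB⟩ := data_coreR.{u} (d + b.natDegree) m' d m p hp hd (Nat.le_add_right _ _)
    (Nat.le_add_right _ _)
  refine ⟨d + b.natDegree, B, hB0, Nat.le_add_right _ _, ?_⟩
  intro a θ z α hlev hin i j hij
  have hk : ∀ x : k, algebraMap k C x ∈
      IntermediateField.adjoin κ {algebraMap k C T, algebraMap k C ϑ} := by
    intro x
    have h1 : (IntermediateField.adjoin F {T, ϑ} : IntermediateField F k).toSubfield ≤
        (IntermediateField.adjoin κ {algebraMap k C T, algebraMap k C ϑ}).toSubfield.comap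
          (algebraMap k C) := by
      rw [IntermediateField.adjoin_toSubfield, Subfield.closure_le]
      rintro x (⟨y, rfl⟩ | hx)
      · change algebraMap k C (algebraMap F k y) ∈
          IntermediateField.adjoin κ {algebraMap k C T, algebraMap k C ϑ}
        rw [← IsScalarTower.algebraMap_apply F k C]
        exact (IntermediateField.adjoin κ {algebraMap k C T, algebraMap k C ϑ}).algebraMap_mem
          ⟨_, hFκ y⟩
      · rcases hx with rfl | hx
        · exact IntermediateField.subset_adjoin κ _ (by simp)
        · rw [Set.mem_singleton_iff.mp hx]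
          exact IntermediateField.subset_adjoin κ _ (by simp)
    rw [htop] at h1
    exact h1 (Subfield.mem_top x)
  have hcoef : (fun i => algebraMap k C (∑ l, algebraMap F k (a i l) * T ^ (l : ℕ))) =
      fun i : Fin (d + 1) => ∑ l : Fin (m + 1), (((⟨algebraMap F C (a i l), hFκ _⟩ : κ) : C)) *
        (algebraMap k C T) ^ (l : ℕ) := by
    funext i
    rw [map_sum]
    refine Finset.sum_congr rfl fun l _ => ?_
    rw [map_mul, map_pow, ← IsScalarTower.algebraMap_apply F k C]
  rw [hcoef] at hlev hin
  refine hB κ (kappa_closed_one k hκ) htr hb (Nat.le_add_left _ _) hbm hbϑ hk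
    (fun i l => ⟨algebraMap F C (a i l), hFκ _⟩) hlev ?_ i j hij
  intro V hκV hgood σ hσ
  by_cases hV : V = ⊤
  · -- the trivial valuation ring
    intro i j _
    have h1 := hσ.res (z i j) (by rw [hV]; trivial)
    have h2 : σ (z i j) - z i j = 0 := by
      by_contra hne
      subst hV
      have h3 : (⊤ : ValuationSubring C).valuation (σ (z i j) - z i j)⁻¹ ≤ 1 :=
        ((⊤ : ValuationSubring C).valuation_le_one_iff _).2 (by trivial)
      rw [map_inv₀] at h3
      have h4 : (⊤ : ValuationSubring C).valuation (σ (z i j) - z i j) ≠ 0 := by simpa using hne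
      exact absurd h1 (not_lt.2 ((inv_le_one₀ (zero_lt_iff.2 h4)).1 h3))
    exact sub_eq_zero.1 h2
  · refine hin V ?_ (natCast_residue_ne_zero_one (F := F) (fun c => hκV _ (hFκ c)) hp.ne_zero)
      hgood σ hσ
    have hgal : IsGalois k C := IsAlgClosure.isGalois k C
    have hfin : FiniteDimensional (IntermediateField.adjoin F {T}) k := by
      have h1 : IntermediateField.adjoin (IntermediateField.adjoin F {T}) {ϑ} = ⊤ := by
        have h2 := IntermediateField.adjoin_adjoin_left F ({T} : Set k) {ϑ}
        apply IntermediateField.restrictScalars_injective F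
        rw [h2, IntermediateField.restrictScalars_top, ← htop]
        congr 1
      have h2 := IntermediateField.adjoin.finiteDimensional hϑ.isIntegral
      rw [h1] at h2
      exact Module.Finite.equiv (IntermediateField.topEquiv
        (F := IntermediateField.adjoin F {T}) (E := k)).toLinearEquiv
    obtain ⟨S, hS⟩ := Pool.Agent.LT.resid_fg_gen (k₁ := F) (k := k) (C := C) hF T hfin (W := V) hV
      (fun c => hκV _ (hFκ c))
    exact hasPlaces_of_closure hS

end Pool.Agent.TD
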