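import Pool.Agent.Helper37.TH.NoFam
import Pool.Agent.Helper37.TH.V3
import Pool.Agent.Helper13.TD.FR
import Pool.Agent.Helper13.TD.R0
import Pool.Agent.Helper13.HZ.Transport

/-!
# There is no family of level one structures with bounded data which is not thin, over a function
field of one variable
-/

universe u v w

namespace TH

open Polynomial Pool.Agent.Helper37.UL UL Pool.Agent.TD

/-- There is no family of level one structures with bounded data which is not thin: the case of a field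
which contains the roots of unity. -/
theorem no_family_mu_theta {J : Type v} {F C : Type u} [Field F] [CharZero F] [Field C] [Algebra F C]
    [IsAlgClosed C] [CharZero C] {m D d p B : ℕ} (hp : p.Prime) (hd : 3 ≤ d) (hm : 1 ≤ m)
    {vv : J → Fin (d + 1) × Fin (m + 1) → F} (hthin : ¬ IsThin (Set.range vv))
    {F' κ : Subfield C} {ζ : C}
    (hF' : F' = Subfield.closure (((algebraMap F C).fieldRange : Set C) ∪ {ζ}))
    (hζ : ζ ^ p = 1) (hμ : ∀ ξ : C, ξ ^ p = 1 → ξ ∈ F')
    (hκ : ∀ x : C, x ∈ κ ↔ IsAlgebraic F' x) {T : C} (hT : AlgebraicIndependent κ ![T])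
    {q : C} (hq : SplitAt κ T q) (hqa : IsAlgebraic (gen (algebraMap F C).fieldRange ![T]) q)
    (halg : ∀ x : C, IsAlgebraic (gen F' ![T]) x)
    {θ : J → Fin d → C} {z : J → Fin d → Fin d → C} {α : J → C}
    (hlev : ∀ a, Lev (Subfield.closure ((gen F' ![T] : Set C) ∪ {q})) p (fun i : Fin (d + 1) =>
      ∑ e : Fin (m + 1), algebraMap F C (vv a (i, e)) * T ^ (e : ℕ)) (θ a) (z a) (α a))
    (hdata : ∀ a i j, i ≠ j → DataR κ (gen κ ![T]) T D d p B
      (fun i l => algebraMap F C (vv a (i, l))) ![q, θ a i, θ a j] (z a i j)) : False := by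
  classical
  obtain ⟨U, hUF, hUQ⟩ := exists_ultra_thin vv hthin
  obtain ⟨S, _, π, h⟩ := exists_up.{u, v} U C
  have hSa : IsAlgClosed S := h.isAlgClosed
  have hS0 : CharZero S := h.charZero
  let xx : J → Fin (d + 1) × Fin (m + 1) → C := fun j q => algebraMap F C (vv j q)
  have hU : ∀ Ψ : MvPolynomial (Fin (d + 1) × Fin (m + 1)) C, Ψ ≠ 0 →
      ∀ᶠ j in (U : Filter J), MvPolynomial.eval (xx j) Ψ ≠ 0 := gen_extend hUF
  -- notation
  let FC : Subfield C := (algebraMap F C).fieldRange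
  have hFCF' : FC ≤ F' := by
    rw [hF']
    exact fun x hx => Subfield.subset_closure (Or.inl hx)
  have hζF' : ζ ∈ F' := hμ ζ hζ
  have hF'κ : F' ≤ κ := fun x hx => (hκ x).mpr (isAlgebraic_algebraMap (⟨x, hx⟩ : F'))
  have hκcl : ∀ x : C, IsAlgebraic κ x → x ∈ κ := by
    intro x hx
    have h0 : κ = (algebraicClosure F' C).toSubfield := by
      ext y
      rw [hκ]
      exact mem_algebraicClosure_iff.symm
    rw [hκ]
    have h1 : IsAlgebraic (algebraicClosure F' C) x := by
      rw [h0] at hx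
      exact hx
    exact (isIntegral_trans (R := F') (A := algebraicClosure F' C) _ h1.isIntegral).isAlgebraic
  let L : Subfield S := Lg π vv
  let L' : Subfield S := Subfield.closure ((L : Set S) ∪ {UP.cst π ζ})
  let t' : S := UP.cst π T
  let τ1 : Fin 1 → S := fun i => UP.cst π ((![T] : Fin 1 → C) i)
  have hτ1 : τ1 = ![t'] := by
    funext i
    fin_cases i
    rfl
  let κ' := h.gsub κ
  let q' : S := UP.cst π q
  let Kst₁ := h.gsub (gen F' ![T])
  let Kg₁ := h.gsub (gen κ ![T])
  let k₁ := gen L' τ1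
  let Kst := h.gsub (Subfield.closure ((gen F' ![T] : Set C) ∪ {q}))
  let Kg := h.gsub (Subfield.closure ((gen κ ![T] : Set C) ∪ {q}))
  let k0 := Subfield.closure ((k₁ : Set S) ∪ {q'})
  let θ' : Fin d → S := fun i => π fun a => θ a i
  let z' : Fin d → Fin d → S := fun i j => π fun a => z a i j
  let f' : Fin (d + 1) → S := fun i => π fun a =>
    ∑ e : Fin (m + 1), algebraMap F C (vv a (i, e)) * T ^ (e : ℕ)
  have hlev' : Lev Kst p f' θ' z' (π α) := h.lev hlev
  have hvec : ∀ i j, (fun l => π fun a => (![q, θ a i, θ a j] : Fin 3 → C) l) =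
      ![q', θ' i, θ' j] := by
    intro i j
    funext l
    fin_cases l <;> rfl
  have hdata' : ∀ i j, i ≠ j → DataR κ' Kg₁ t' D d p B
      (fun i l => π fun a => algebraMap F C (vv a (i, l))) ![q', θ' i, θ' j] (z' i j) := by
    intro i j hij
    have h1 := up_data h (w := fun a => z a i j) fun a => hdata a i j hij
    rw [hvec] at h1
    exact h1
  have hB : 0 < B := by
    have h01 : (⟨0, by omega⟩ : Fin d) ≠ ⟨1, by omega⟩ := by
      intro h1
      have := congrArg Fin.val h1
      simp at this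
    obtain ⟨g, r, G, c, c', hg, hr, hG, hgG, hA, hR, hc, hc', hχ, -⟩ := hdata' _ _ h01
    by_contra hB
    have hB0 : B = 0 := by omega
    subst hB0
    simp at hχ
  -- elementary facts
  have hFC : ∀ j q, xx j q ∈ FC := fun j q => ⟨vv j q, rfl⟩
  have hLFC : L ≤ h.gsub FC := by
    change Subfield.closure _ ≤ _
    rw [Subfield.closure_le, Set.union_subset_iff]
    constructor
    · rintro _ ⟨c, rfl⟩
      exact h.const_mem_gsub.mpr ⟨c, rfl⟩
    · rintro _ ⟨q, rfl⟩
      exact ⟨_, fun j => hFC j q, rfl⟩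
  have hL'F' : L' ≤ h.gsub F' := by
    change Subfield.closure _ ≤ _
    rw [Subfield.closure_le, Set.union_subset_iff]
    constructor
    · exact fun x hx => h.gsub_mono hFCF' (hLFC hx)
    · rintro _ hx
      rw [Set.mem_singleton_iff.mp hx]
      exact h.const_mem_gsub.mpr hζF'
  have hLL' : L ≤ L' := fun x hx => Subfield.subset_closure (Or.inl hx)
  have hL'κ' : L' ≤ κ' := fun x hx => h.gsub_mono hF'κ (hL'F' hx)
  have hxL : ∀ q, xg π xx q ∈ L := fun q => Subfield.subset_closure (Or.inr ⟨q, rfl⟩)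
  have hLrel : ∀ x ∈ h.gsub FC, IsAlgebraic L x → x ∈ L := fun x hx hx' =>
    Lg_closed h hUF hUQ hx hx'
  have hL'rel : ∀ x ∈ h.gsub F', IsAlgebraic L' x → x ∈ L' := by
    intro x hx hx'
    have hζalg : IsAlgebraic L (UP.cst π ζ) := by
      apply IsAlgebraic.of_pow hp.pos
      rw [← map_pow, hζ, map_one]
      exact isAlgebraic_one
    refine Pool.Agent.TD.relClosed_adjoin hLFC hLrel hζalg x ?_ hx'
    have hζalg' : IsAlgebraic FC ζ := by
      apply IsAlgebraic.of_pow hp.pos
      rw [hζ]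
      exact isAlgebraic_one
    rw [← Pool.Agent.TD.gsub_adjoin h hζalg', ← hF']
    exact hx
  have hT' : AlgebraicIndependent F' ![T] := by
    rw [algebraicIndependent_unique_type_iff] at hT ⊢
    intro h0
    exact hT (isAlgebraic_mono hF'κ h0)
  have hk₁k0 : k₁ ≤ k0 := fun x hx => Subfield.subset_closure (Or.inl hx)
  have htk0 : t' ∈ k0 := hk₁k0 (gen_mem (τ := τ1) 0)
  have hL'k0 : L' ≤ k0 := le_gen.trans hk₁k0
  have hk₁Kst₁ : k₁ ≤ Kst₁ := (gen_mono_left hL'F').trans h.gen_le
  have hqF' : IsAlgebraic (gen F' ![T]) q := isAlgebraic_mono (gen_mono_left hFCF') hqa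
  have hqκ : IsAlgebraic (gen κ ![T]) q := isAlgebraic_mono (gen_mono_left hF'κ) hqF'
  have hKsteq : Kst = Subfield.closure ((Kst₁ : Set S) ∪ {q'}) := Pool.Agent.TD.gsub_adjoin h hqF'
  have hKgeq : Kg = Subfield.closure ((Kg₁ : Set S) ∪ {q'}) := Pool.Agent.TD.gsub_adjoin h hqκ
  have hk0Kst : k0 ≤ Kst := by
    rw [hKsteq]
    exact Subfield.closure_mono (Set.union_subset_union_left _ hk₁Kst₁)
  have hqk₁ : IsAlgebraic k₁ q' := by
    have h1 := Pool.Agent.HZ.alg_map (UP.cst π) (L := gen (algebraMap F C).fieldRange ![T])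
      (L' := k₁) ?_ hqa
    · exact h1
    · intro x hx
      have h2 : gen (algebraMap F C).fieldRange ![T] ≤ k₁.comap (UP.cst π) := by
        conv_lhs => unfold gen
        rw [Subfield.closure_le, Set.union_subset_iff]
        refine ⟨?_, ?_⟩
        · rintro _ ⟨c, rfl⟩
          exact le_gen (hLL' (Subfield.subset_closure (Or.inl ⟨c, rfl⟩)))
        · rintro _ ⟨i, rfl⟩
          exact gen_mem (τ := τ1) i
      exact h2 hx
  have htrans : Transcendental (h.gsub F') t' := by
    have := (h.algInd hT').transcendental 0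
    exact this
  have hrel₁ : ∀ x ∈ Kst₁, IsAlgebraic k₁ x → x ∈ k₁ := by
    intro x hx hx'
    have h1 : x ∈ gen (h.gsub F') τ1 :=
      h.gen_relAlgClosed hT' hx (isAlgebraic_mono (gen_mono_left hL'F') hx')
    change x ∈ gen L' τ1
    have h2 : IsAlgebraic (gen L' τ1) x := hx'
    rw [hτ1] at h1 h2 ⊢
    exact gauss hL'F' hL'rel htrans h1 h2
  have hrel : ∀ x ∈ Kst, IsAlgebraic k0 x → x ∈ k0 := by
    intro x hx hx'
    rw [hKsteq] at hx
    exact Pool.Agent.TD.relClosed_adjoin hk₁Kst₁ hrel₁ hqk₁ x hx hx'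
  have hrel'₁ : ∀ x ∈ Kg₁, IsAlgebraic (gen κ' τ1) x → x ∈ gen κ' τ1 := fun x hx hx' =>
    h.gen_relAlgClosed hT hx hx'
  let B₁ := Subfield.closure ((gen κ' τ1 : Set S) ∪ {q'})
  have hrel' : ∀ x ∈ Kg, IsAlgebraic B₁ x → x ∈ B₁ := by
    intro x hx hx'
    rw [hKgeq] at hx
    exact Pool.Agent.TD.relClosed_adjoin (K := gen κ' τ1) (M := Kg₁) h.gen_le hrel'₁
      (isAlgebraic_mono (gen_mono_left hL'κ') hqk₁) x hx hx'
  have hκ' : ∀ x : S, IsAlgebraic κ' x → x ∈ κ' := fun x hx => h.gsub_algClosed hκcl hx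
  have hgenle : gen F' ![T] ≤ gen κ ![T] := gen_mono_left hF'κ
  have hKstKg : Kst ≤ Kg := h.gsub_mono
    (Subfield.closure_mono (Set.union_subset_union_left _ hgenle))
  have hκ'Kg : κ' ≤ Kg₁ := h.gsub_mono le_gen
  have htKg : t' ∈ Kg₁ := h.const_mem_gsub.mpr (gen_mem (τ := ![T]) 0)
  have hKg₁Kg : Kg₁ ≤ Kg := by
    rw [hKgeq]
    exact fun x hx => Subfield.subset_closure (Or.inl hx)
  have hqKg : q' ∈ Kg := by
    rw [hKgeq]
    exact Subfield.subset_closure (Or.inr rfl)
  have ht' : Transcendental κ' t' := by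
    have := (h.algInd hT).transcendental 0
    exact this
  have hμ' : ∀ ξ : S, ξ ^ p = 1 → ξ ∈ k0 := by
    intro ξ hξ
    apply hL'k0
    obtain ⟨g, rfl⟩ := h.surj ξ
    have h1 : ∀ᶠ a in (U : Filter J), g a ^ p = 1 := by
      have h2 : π (g ^ p) = π 1 := by rw [map_pow, hξ, map_one]
      exact (h.eq_iff _ _).mp h2
    apply hL'rel
    · rw [h.coe_mem_gsub]
      filter_upwards [h1] with a ha
      exact hμ _ ha
    · apply IsAlgebraic.of_pow hp.pos
      rw [hξ]
      exact isAlgebraic_one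
  have hf' : ∀ i, f' i = ∑ l : Fin (m + 1), xg π xx (i, l) * t' ^ (l : ℕ) := by
    intro i
    have h1 : (fun a => ∑ e : Fin (m + 1), algebraMap F C (vv a (i, e)) * T ^ (e : ℕ)) =
        ∑ e : Fin (m + 1), (fun a => xx a (i, e)) * (fun _ => T) ^ (e : ℕ) := by
      funext a
      simp only [Finset.sum_apply, Pi.mul_apply, Pi.pow_apply, xx]
    change π _ = _
    rw [h1, map_sum]
    apply Finset.sum_congr rfl
    intro l _
    rw [map_mul, map_pow]
    rfl
  have hf'k0 : ∀ i, f' i ∈ k0 := by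
    intro i
    rw [hf']
    apply Subfield.sum_mem
    intro l _
    exact Subfield.mul_mem _ (hL'k0 (hLL' (hxL _))) (Subfield.pow_mem _ htk0 _)
  have hθalg : ∀ i, IsAlgebraic k0 (θ' i) := fun i =>
    isAlgebraic_of_root (c := f') (fun j => ⟨⟨_, hf'k0 j⟩, rfl⟩) hlev'.lead (hlev'.root i)
  have hαalg : IsAlgebraic k0 (π α) := by
    apply IsAlgebraic.of_pow hp.pos
    rw [hlev'.alpha]
    exact isAlgebraic_algebraMap (⟨_, hf'k0 _⟩ : k0)
  -- the algebraic closure of `L'`
  let κ0 : Subfield S := (algebraicClosure L' S).toSubfield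
  have hmemκ0 : ∀ x : S, x ∈ κ0 ↔ IsAlgebraic L' x := fun x => mem_algebraicClosure_iff
  have hκ0cl : ∀ x : S, IsAlgebraic κ0 x → x ∈ κ0 := by
    intro x hx
    rw [hmemκ0]
    have h1 : IsAlgebraic (algebraicClosure L' S) x := hx
    exact (isIntegral_trans (R := L') (A := algebraicClosure L' S) _
      h1.isIntegral).isAlgebraic
  have hκ0κ' : κ0 ≤ κ' := fun x hx => hκ' x (isAlgebraic_mono hL'κ' ((hmemκ0 x).mp hx))
  have hκ0k0 : ∀ x ∈ κ0, IsAlgebraic k0 x := fun x hx =>
    isAlgebraic_mono hL'k0 ((hmemκ0 x).mp hx)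
  have hL'κ0 : L' ≤ κ0 := fun x hx => (hmemκ0 _).mpr
    (isAlgebraic_algebraMap (⟨x, hx⟩ : L'))
  have haκ0 : ∀ (i : Fin (d + 1)) (l : Fin (m + 1)),
      (π fun a => algebraMap F C (vv a (i, l))) ∈ κ0 := fun i l => hL'κ0 (hLL' (hxL (i, l)))
  have hfa : ∀ i, f' i = ∑ l : Fin (m + 1), (π fun a => algebraMap F C (vv a (i, l))) *
      t' ^ (l : ℕ) := fun i => hf' i
  have hqκ0 : IsAlgebraic (IntermediateField.adjoin κ0 {t'}) q' := by
    have h1 : k₁ ≤ (IntermediateField.adjoin κ0 {t'}).toSubfield := by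
      change gen L' τ1 ≤ _
      unfold gen
      rw [Subfield.closure_le, Set.union_subset_iff]
      refine ⟨fun x hx => (IntermediateField.adjoin κ0 {t'}).algebraMap_mem ⟨x, hL'κ0 hx⟩, ?_⟩
      rintro _ ⟨i, rfl⟩
      fin_cases i
      exact IntermediateField.mem_adjoin_simple_self κ0 t'
    exact isAlgebraic_mono h1 hqk₁
  -- factorisation
  have hz : ∀ i j, i ≠ j → ∃ e g : S, IsAlgebraic k0 e ∧
      g ∈ Subfield.closure ((Kg : Set S) ∪ Set.range θ') ∧ z' i j = e * g := by
    intro i j hij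
    obtain ⟨e, g, he, hg, heg⟩ := exists_factorR hκ0κ' hκ0cl hκ' ht' hκ'Kg htKg hκ0k0 htk0 hp hB haκ0
      hlev'.inj (by rw [← hfa]; exact hlev'.lead) (by
        intro i
        rw [← hlev'.root i]
        apply Finset.sum_congr rfl
        intro l _
        rw [hfa]) hqκ0 (hlev'.ne i j hij) (hdata' i j hij)
    refine ⟨e, g, he, ?_, heg⟩
    have h1 : Subfield.closure ((Kg₁ : Set S) ∪ Set.range (Fin.cons q' θ' : Fin (d + 1) → S)) ≤
        Subfield.closure ((Kg : Set S) ∪ Set.range θ') := by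
      rw [Subfield.closure_le]
      rintro x (hx | ⟨i, rfl⟩)
      · exact Subfield.subset_closure (Or.inl (hKg₁Kg hx))
      · refine Fin.cases ?_ (fun i => ?_) i
        · exact Subfield.subset_closure (Or.inl hqKg)
        · exact Subfield.subset_closure (Or.inr ⟨i, rfl⟩)
    exact h1 hg
  -- double transitivity
  have h2 : ∀ i j i' j', i ≠ j → i' ≠ j' → ∃ σ : S ≃+* S, (∀ y ∈ Kg, σ y = y) ∧
      σ (θ' i) = θ' i' ∧ σ (θ' j) = θ' j' := by
    intro i j i' j' hij hij'
    obtain ⟨σ, hσ, hσq, hσi, hσj⟩ := two_trans_theta h (vv := xx) hU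
      (fun j q => hF'κ (hFCF' (hFC j q))) hT hq hd hm hlev'.inj
      (fun i => hlev'.root i) hij hij'
    have hk0gen : k0 ≤ B₁ :=
      Subfield.closure_mono (Set.union_subset_union_left _ (gen_mono_left hL'κ'))
    have hB₁Kg : B₁ ≤ Kg := by
      rw [hKgeq]
      exact Subfield.closure_mono (Set.union_subset_union_left _ h.gen_le)
    have hσB : ∀ y ∈ B₁, σ y = y := by
      have h3 : B₁ ≤ (RingEquiv.toRingHom σ).eqLocusField (RingHom.id S) := by
        change Subfield.closure _ ≤ _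
        rw [Subfield.closure_le]
        rintro y (hy | hy)
        · exact hσ y hy
        · rw [Set.mem_singleton_iff.1 hy]
          exact hσq
      exact fun y hy => h3 hy
    obtain ⟨τ, hτ, hττ⟩ := lift_conj (B := B₁) (K' := Kg) hB₁Kg hrel' θ'
      (fun i => isAlgebraic_mono hk0gen (hθalg i)) σ hσB
    exact ⟨τ, hτ, (hττ i).trans hσi, (hττ j).trans hσj⟩
  -- internal automorphisms
  have hI2 : ∀ T' : S ≃+* S, UP.Internal π (Subfield.closure ((gen F' ![T] : Set C) ∪ {q})) T' →
      ∀ y ∈ Kg, T' y ∈ Kg := by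
    intro T' hT' y hy
    refine UP.Internal.maps h hT' ?_ hy
    intro τ hτ x hx
    have hτκ : ∀ y ∈ κ, τ y ∈ κ := by
      intro y hy
      rw [hκ] at hy ⊢
      have hfix : ∀ c ∈ F', τ c = c := fun c hc =>
        hτ c (Subfield.subset_closure (Or.inl (le_gen hc)))
      obtain ⟨q, hq0, hq⟩ := hy
      exact ⟨q, hq0, by rw [← map_aeval hfix, hq, map_zero]⟩
    have h1 : gen κ ![T] ≤ (gen κ ![T]).comap (τ : C →+* C) := by
      conv_lhs => unfold gen
      rw [Subfield.closure_le, Set.union_subset_iff]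
      refine ⟨fun x hx => le_gen (hτκ x hx), ?_⟩
      rintro _ ⟨i, rfl⟩
      fin_cases i
      change τ T ∈ gen κ ![T]
      rw [hτ T (Subfield.subset_closure (Or.inl (gen_mem (τ := ![T]) 0)))]
      exact gen_mem (τ := ![T]) 0
    have h2 : Subfield.closure ((gen κ ![T] : Set C) ∪ {q}) ≤
        (Subfield.closure ((gen κ ![T] : Set C) ∪ {q})).comap (τ : C →+* C) := by
      rw [Subfield.closure_le]
      rintro y (hy | hy)
      · exact Subfield.subset_closure (Or.inl (h1 hy))
      · rw [Set.mem_singleton_iff.1 hy]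
        change τ q ∈ Subfield.closure ((gen κ ![T] : Set C) ∪ {q})
        rw [hτ q (Subfield.subset_closure (Or.inr rfl))]
        exact Subfield.subset_closure (Or.inr rfl)
    exact h2 hx
  obtain ⟨β, hβ, hβn, hβθ, hβα, hβz⟩ := group_trick hk0Kst hKstKg hp.ne_zero hd hlev' hμ' hθalg
    hαalg hz h2 (UP.Internal π (Subfield.closure ((gen F' ![T] : Set C) ∪ {q})))
    (fun T' hT' y hy => UP.Internal.fix h hT' hy) hI2
    (fun β z hβ hβz => h.mem_of_internal (fun x => isAlgebraic_mono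
      (fun y hy => Subfield.subset_closure (Or.inl hy)) (halg x)) hβ hβz)
  obtain ⟨z'', hz''⟩ := descend hk0Kst hrel hp.ne_zero hlev' hf'k0 hμ' hβ hβn hβθ hβα hβz
  refine no_lev_theta h (vv := xx) hU hT hq hp hd hm (L' := L') ?_ hz''
  change Subfield.closure _ ≤ _
  rw [Subfield.closure_le, Set.union_subset_iff]
  constructor
  · intro x hx
    have h1 : L ≤ Subfield.closure (UP.cst π '' κ ∪ Set.range (xg π xx)) := by
      change Subfield.closure _ ≤ _
      rw [Subfield.closure_le, Set.union_subset_iff]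
      constructor
      · rintro _ ⟨c, rfl⟩
        exact Subfield.subset_closure
          (Or.inl ⟨algebraMap F C c, hF'κ (hFCF' ⟨c, rfl⟩), rfl⟩)
      · intro y hy
        exact Subfield.subset_closure (Or.inr hy)
    exact h1 hx
  · rintro _ hx
    rw [Set.mem_singleton_iff.mp hx]
    exact Subfield.subset_closure (Or.inl ⟨ζ, hF'κ hζF', rfl⟩)

/-- **There is no family of level one structures with bounded data which is not thin.** -/
theorem no_family_theta {J : Type v} {F C : Type u} [Field F] [CharZero F] [Field C] [Algebra F C]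
    [IsAlgClosed C] {m D d p B : ℕ} (hp : p.Prime) (hd : 3 ≤ d) (hm : 1 ≤ m)
    {vv : J → Fin (d + 1) × Fin (m + 1) → F} (hnt : ¬ IsThin (Set.range vv))
    {κ : Subfield C} (hκ : ∀ x : C, x ∈ κ ↔ IsAlgebraic (algebraMap F C).fieldRange x)
    {T : C} (hT : AlgebraicIndependent κ ![T]) {q : C} (hq : SplitAt κ T q)
    (halg : ∀ x : C, IsAlgebraic (gen (algebraMap F C).fieldRange ![T]) x)
    {θ : J → Fin d → C} {z : J → Fin d → Fin d → C} {α : J → C}
    (hlev : ∀ a, Lev (Subfield.closure ((gen (algebraMap F C).fieldRange ![T] : Set C) ∪ {q})) p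
      (fun i : Fin (d + 1) =>
      ∑ e : Fin (m + 1), algebraMap F C (vv a (i, e)) * T ^ (e : ℕ)) (θ a) (z a) (α a))
    (hdata : ∀ a i j, i ≠ j → DataR κ (gen κ ![T]) T D d p B
      (fun i l => algebraMap F C (vv a (i, l))) ![q, θ a i, θ a j] (z a i j)) : False := by
  have hC0 : CharZero C := charZero_of_injective_algebraMap (algebraMap F C).injective
  have hp0 : NeZero p := ⟨hp.ne_zero⟩
  have hpC : NeZero (p : C) := ⟨Nat.cast_ne_zero.mpr hp.ne_zero⟩
  obtain ⟨ζ, hζ⟩ := HasEnoughRootsOfUnity.exists_primitiveRoot C p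
  let F' : Subfield C := Subfield.closure (((algebraMap F C).fieldRange : Set C) ∪ {ζ})
  have hFF' : (algebraMap F C).fieldRange ≤ F' := fun x hx => Subfield.subset_closure (Or.inl hx)
  have hζF' : ζ ∈ F' := Subfield.subset_closure (Or.inr rfl)
  have hF'κ : F' ≤ κ := by
    change Subfield.closure _ ≤ _
    rw [Subfield.closure_le, Set.union_subset_iff]
    constructor
    · exact fun x hx => (hκ x).mpr
        (isAlgebraic_algebraMap (⟨x, hx⟩ : (algebraMap F C).fieldRange))
    · intro x hx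
      rw [Set.mem_singleton_iff.mp hx]
      apply (hκ ζ).mpr
      apply IsAlgebraic.of_pow hp.pos
      rw [hζ.pow_eq_one]
      exact isAlgebraic_one
  refine no_family_mu_theta hp hd hm hnt (F' := F') (κ := κ) (ζ := ζ) rfl hζ.pow_eq_one ?_ ?_ hT hq
    (halg q) ?_ (fun a => Lev_mono (Subfield.closure_mono (Set.union_subset_union_left _
      (gen_mono_left hFF'))) (hlev a)) hdata
  · intro ξ hξ
    obtain ⟨i, -, hi⟩ := hζ.eq_pow_of_pow_eq_one hξ
    rw [← hi]
    exact Subfield.pow_mem _ hζF' _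
  · intro x
    constructor
    · intro hx
      exact isAlgebraic_mono hFF' ((hκ x).mp hx)
    · intro hx
      exact closed_of_iff hκ (isAlgebraic_mono hF'κ hx)
  · exact fun x => isAlgebraic_mono (gen_mono_left hFF') (halg x)

end TH
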