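import Pool.Agent.Helper13.TD.DR

/-!
# Bounded data over function fields of one variable

`k` a subfield of the algebraically closed field `C`, `κ` an algebraically closed subfield of `C`, `T'`
transcendental over `κ`, `ϑ` algebraic over `κ(T')`, `k ⊆ κ(T', ϑ)`.
-/

set_option linter.unusedVariables false

universe u

namespace Pool.Agent.TD

open Polynomial Pool.Agent.Helper91.Sect Pool.Agent.Helper37.UL VC FF IntermediateField

section

variable {C : Type u} [Field C] {κ : Subfield C} {M : IntermediateField κ C}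

lemma cpxR_of_coords {D B N r : ℕ} {t h : M} {rt : Fin r → M} (hNB : N ≤ B)
    (H : ∃ (b : κ[X]) (c : (Fin r → Fin D) → κ[X]), b ≠ 0 ∧ b.natDegree ≤ N ∧
      (∀ β, (c β).natDegree ≤ N) ∧
      aeval t b * h = ∑ β, aeval t (c β) * ∏ j, rt j ^ (β j : ℕ)) :
    CpxR κ D B (t : C) (fun j => (rt j : C)) (h : C) := by
  obtain ⟨b, c, hb, hbN, hcN, hrel⟩ := H
  refine ⟨fun β l => ((c β).coeff l : κ), fun l => (b.coeff l : κ), fun β l =>
    Subtype.coe_prop _, fun l => Subtype.coe_prop _, ?_, ?_⟩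
  · intro h0
    have h1 := congrFun h0 ⟨b.natDegree, by omega⟩
    have h2 : ((b.coeff b.natDegree : κ) : C) = 0 := h1
    have h3 : b.coeff b.natDegree = 0 := Subtype.ext h2
    exact leadingCoeff_ne_zero.mpr hb h3
  · rw [← _root_.UL.aeval_eq_fin_sum (hbN.trans hNB), ← _root_.UL.coe_aeval]
    have h1 := congrArg (Subtype.val : M → C) hrel
    change ((aeval t b : M) : C) * (h : C) = _ at h1
    rw [h1]
    change M.val (∑ β, aeval t (c β) * ∏ j, rt j ^ (β j : ℕ)) = _
    rw [map_sum]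
    refine Finset.sum_congr rfl fun β _ => ?_
    rw [map_mul, map_prod, ← _root_.UL.aeval_eq_fin_sum ((hcN β).trans hNB), ← _root_.UL.coe_aeval]
    congr 1

end

/-- **Bounded data**, abstract form, with the generator `ϑ`. -/
theorem data_coreR (D m' d m p : ℕ) (hp : p.Prime) (hd : 3 ≤ d) (hdD : d ≤ D) (hmm : m ≤ m') :
    ∃ B : ℕ, 0 < B ∧
    ∀ {k C : Type u} [Field k] [CharZero k] [Field C] [Algebra k C] [IsAlgClosure k C]
      (κ : Subfield C) (hcl : IsAlgClosed κ) {T' ϑ : C} (htr : Transcendental κ T')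
      {b : κ[X][X]} (hb : b ≠ 0) (hbD : b.natDegree ≤ D) (hbm : ∀ i, (b.coeff i).natDegree ≤ m')
      (hbϑ : eval₂ (aeval T' : κ[X] →ₐ[κ] C).toRingHom ϑ b = 0)
      (hk : ∀ x : k, algebraMap k C x ∈ IntermediateField.adjoin κ {T', ϑ})
      (A : Fin (d + 1) → Fin (m + 1) → κ)
      {θ : Fin d → C} {z : Fin d → Fin d → C} {α : C}
      (hlev : Lev (algebraMap k C).fieldRange p
        (fun i => ∑ l, (A i l : C) * T' ^ (l : ℕ)) θ z α)
      (hin : ∀ V : ValuationSubring C, (∀ c ∈ κ, c ∈ V) →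
        GoodAt V (fun i => ∑ l, (A i l : C) * T' ^ (l : ℕ)) θ →
        ∀ σ : C ≃+* C, Inert (algebraMap k C).fieldRange V σ →
          ∀ i j, i ≠ j → σ (z i j) = z i j)
      (i j : Fin d) (hij : i ≠ j),
      DataR κ (Subfield.closure ((κ : Set C) ∪ {T'})) T' D d p B
        (fun i l => (A i l : C)) ![ϑ, θ i, θ j] (z i j) := by
  classical
  set e := (d + (d - 1)) * m with he_def
  set N := _root_.UL.bndN 3 D m' e with hN
  set B₀ := _root_.UL.bndC 3 D m' (p * N) + _root_.UL.bndC 3 D m' N + D ^ 3 + D ^ 3 * (p * N) with hB₀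
  refine ⟨B₀ + 1, Nat.succ_pos _, ?_⟩
  intro k C _ _ _ _ _ κ hcl T' ϑ htr b hb hbD hbm hbϑ hk A θ z α hlev hin i j hij
  have hCa : IsAlgClosed C := IsAlgClosure.isAlgClosed k
  have hC0 : CharZero C := charZero_of_injective_algebraMap (algebraMap k C).injective
  have hD : 0 < D := by omega
  have hroot : ∀ j, ∑ i, (∑ l, (A i l : C) * T' ^ (l : ℕ)) * θ j ^ (i : ℕ) = 0 := hlev.root
  have hlead : ∑ l, (A (Fin.last d) l : C) * T' ^ (l : ℕ) ≠ 0 := hlev.lead
  let f : κ[X][X] := _root_.UL.fam A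
  let bad : κ[X] := _root_.UL.RR d f
  have hbadT : aeval T' bad ≠ 0 := by
    have h1 : aeval T' bad = _root_.UL.RR d
        (_root_.UL.spec fun i => ∑ l, (A i l : C) * T' ^ (l : ℕ)) := by
      have h2 := _root_.UL.fam_map A (algebraMap κ C) T'
      have h3 := _root_.UL.RR_map d f (eval₂RingHom (algebraMap κ C) T')
      rw [h2] at h3
      exact h3.symm
    rw [h1]
    exact _root_.UL.RR_spec_ne_zero (by omega) hlead hlev.inj hroot
  have hbad0 : bad ≠ 0 := by
    intro h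
    rw [h, map_zero] at hbadT
    exact hbadT rfl
  have hbadd : bad.natDegree ≤ e :=
    _root_.UL.natDegree_RR_le (_root_.UL.coeff_fam_natDegree A)
  have hf0 : f ≠ 0 := by
    intro h
    apply hlead
    have h2 := _root_.UL.fam_map A (algebraMap κ C) T'
    have h3 : _root_.UL.fam A = 0 := h
    rw [h3, Polynomial.map_zero] at h2
    have h4 := _root_.UL.coeff_spec (fun i => ∑ l, (A i l : C) * T' ^ (l : ℕ)) (Fin.last d)
    rw [← h4]
    have h5 : (_root_.UL.spec fun i => ∑ l, (A i l : C) * T' ^ (l : ℕ)) = 0 := h2.symm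
    rw [h5, coeff_zero]
  -- the function field
  let M : IntermediateField κ C := IntermediateField.adjoin κ {T', ϑ, θ i, θ j}
  have hTM : T' ∈ M := IntermediateField.subset_adjoin _ _ (by simp)
  have hϑM : ϑ ∈ M := IntermediateField.subset_adjoin _ _ (by simp)
  have hiM : θ i ∈ M := IntermediateField.subset_adjoin _ _ (by simp)
  have hjM : θ j ∈ M := IntermediateField.subset_adjoin _ _ (by simp)
  let tM : M := ⟨T', hTM⟩
  let vM : M := ⟨ϑ, hϑM⟩
  let xM : M := ⟨θ i, hiM⟩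
  let yM : M := ⟨θ j, hjM⟩
  have hκM : ∀ c ∈ κ, c ∈ M := fun c hc => M.algebraMap_mem ⟨c, hc⟩
  have hkM : ∀ x : k, algebraMap k C x ∈ M := fun x => by
    have h1 : IntermediateField.adjoin κ {T', ϑ} ≤ M := by
      rw [IntermediateField.adjoin_le_iff]
      rintro y (rfl | hy)
      · exact hTM
      · rw [Set.mem_singleton_iff.mp hy]
        exact hϑM
    exact h1 (hk x)
  have htM : Transcendental κ tM := by
    intro h
    exact htr (h.algebraMap (A := C))
  have hgen : IntermediateField.adjoin κ {tM, vM, xM, yM} = ⊤ := by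
    apply IntermediateField.lift_injective M
    rw [IntermediateField.lift_adjoin, IntermediateField.lift_top]
    rw [Set.image_insert_eq, Set.image_insert_eq, Set.image_insert_eq, Set.image_singleton]
  have hfx : ∀ (j : Fin d) (hj : θ j ∈ M),
      eval₂ (aeval tM : κ[X] →ₐ[κ] M).toRingHom (⟨θ j, hj⟩ : M) f = 0 := by
    intro j hj
    have h1 : eval₂ (aeval tM : κ[X] →ₐ[κ] M).toRingHom (⟨θ j, hj⟩ : M) f =
        (f.map (aeval tM : κ[X] →ₐ[κ] M).toRingHom).eval (⟨θ j, hj⟩ : M) := by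
      rw [eval_map]
    have h2 : (f.map (aeval tM : κ[X] →ₐ[κ] M).toRingHom) =
        _root_.UL.spec fun i => ∑ l, algebraMap κ M (A i l) * tM ^ (l : ℕ) :=
      _root_.UL.fam_map A (algebraMap κ M) tM
    rw [h1, h2, _root_.UL.eval_spec]
    apply M.val.injective
    rw [map_sum, map_zero, ← hroot j]
    refine Finset.sum_congr rfl fun i _ => ?_
    rw [map_mul, map_sum, map_pow]
    rfl
  have hbv : eval₂ (aeval tM : κ[X] →ₐ[κ] M).toRingHom vM b = 0 := by
    apply M.val.injective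
    rw [map_zero, ← hbϑ]
    have h1 := Polynomial.hom_eval₂ b (aeval tM : κ[X] →ₐ[κ] M).toRingHom M.val.toRingHom vM
    refine h1.trans ?_
    congr 1
    refine RingHom.ext fun q => ?_
    exact _root_.UL.coe_aeval tM q
  obtain ⟨a₁, ha₁1, ha₁2, ha₁3⟩ := exists_rel_exact hb hbD hbm hbv
  obtain ⟨a₂, ha₂1, ha₂2, ha₂3⟩ := exists_rel_exact hf0 ((_root_.UL.natDegree_fam A).trans hdD)
    (fun i => (_root_.UL.coeff_fam_natDegree A i).trans hmm) (hfx i hiM)
  obtain ⟨a₃, ha₃1, ha₃2, ha₃3⟩ := exists_rel_exact hf0 ((_root_.UL.natDegree_fam A).trans hdD)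
    (fun i => (_root_.UL.coeff_fam_natDegree A i).trans hmm) (hfx j hjM)
  let cf : Fin 3 → ℕ → κ[X] := ![a₁, a₂, a₃]
  let rt : Fin 3 → M := ![vM, xM, yM]
  have hcf : ∀ j, ∀ i ≤ D, (cf j i).natDegree ≤ m' := by
    intro j i _
    fin_cases j
    · exact ha₁1 i
    · exact ha₂1 i
    · exact ha₃1 i
  have hcf0 : ∀ j, cf j D ≠ 0 := by
    intro j
    fin_cases j
    · exact ha₁2
    · exact ha₂2
    · exact ha₃2
  have hrt : ∀ j, ∑ i ∈ Finset.range (D + 1), aeval tM (cf j i) * rt j ^ i = 0 := by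
    intro j
    fin_cases j
    · exact ha₁3
    · exact ha₂3
    · exact ha₃3
  have htop : IntermediateField.adjoin κ⟮tM⟯ (Set.range rt) = ⊤ := by
    have h1 : Set.range rt = {vM, xM, yM} := by
      ext w
      simp only [rt, Set.mem_range, Set.mem_insert_iff, Set.mem_singleton_iff]
      constructor
      · rintro ⟨i, rfl⟩
        fin_cases i <;> simp
      · rintro (rfl | rfl | rfl)
        · exact ⟨0, rfl⟩
        · exact ⟨1, rfl⟩
        · exact ⟨2, rfl⟩
    have h2 := IntermediateField.adjoin_adjoin_left κ ({tM} : Set M) {vM, xM, yM}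
    rw [h1]
    apply IntermediateField.restrictScalars_injective κ
    rw [h2, IntermediateField.restrictScalars_top, ← hgen]
    rfl
  have hspan := _root_.UL.span_roots htM hD cf hcf0 rt hrt htop
  have hfin : FiniteDimensional κ⟮tM⟯ M :=
    Module.Finite.of_fg_top ⟨(Set.finite_range _).toFinset, by
      rw [Set.Finite.coe_toFinset]; exact hspan⟩
  have hFM : IsFunctionField κ M := ⟨tM, htM, hfin⟩
  have hrank := _root_.UL.finrank_le htM hD cf hcf0 rt hrt htop
  have hδM : z i j ^ p ∈ M := by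
    obtain ⟨φ, hφ, hz⟩ := hlev.pow
    rw [hz i j hij]
    refine sum_mem fun r _ => sum_mem fun s _ => ?_
    obtain ⟨x, hx⟩ := hφ r s
    rw [← hx]
    exact mul_mem (hkM x) (mul_mem (pow_mem hiM _) (pow_mem hjM _))
  let δ : M := ⟨z i j ^ p, hδM⟩
  have hz0 : z i j ≠ 0 := hlev.ne i j hij
  have hδ : δ ≠ 0 := by
    intro h
    exact pow_ne_zero p hz0 (congrArg Subtype.val h)
  -- `C` is an algebraic closure of `M`
  have hCM : IsAlgClosure M C := by
    let _ : Algebra k M := ((algebraMap k C).codRestrict M.toSubring hkM).toAlgebra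
    have : IsScalarTower k M C := IsScalarTower.of_algebraMap_eq fun _ => rfl
    have h1 : Algebra.IsAlgebraic k C := IsAlgClosure.isAlgebraic
    exact ⟨hCa, Algebra.IsAlgebraic.tower_top (K := k) M⟩
  have hM0 : CharZero M := charZero_of_injective_algebraMap (algebraMap κ M).injective
  -- the divisibility
  have hdvd : ∀ (P : Place κ M) (t₀ : κ), tM - algebraMap κ M t₀ ∈ P.ring.nonunits →
      bad.eval t₀ ≠ 0 → (p : ℤ) ∣ ord P.ring δ := by
    intro P t₀ hP ht₀
    by_contra hord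
    obtain ⟨V, τ, hV1, hV2, hV3, hV4, hτ⟩ := _root_.UL.exists_inert (C := C) hFM P hp hδ hord
      (w := z i j) rfl
    apply hτ
    have hκV : ∀ c ∈ κ, c ∈ V := fun c hc => hV1 _ (P.algebraMap_mem ⟨c, hc⟩)
    have hgood := _root_.UL.goodAt_of hκV (by omega) A (T' := T') (t₀ := t₀) (hV2 _ hP) ht₀
      hlev.inj hroot
    refine hin V hκV hgood τ.toRingEquiv ⟨?_, hV3, hV4⟩ i j hij
    rintro _ ⟨x, rfl⟩
    exact τ.commutes ⟨algebraMap k C x, hkM x⟩
  have hdiv : ∀ z ∉ bad.roots.toFinset, ∀ Q : Place κ M, tM - algebraMap κ M z ∈ Q.ring.nonunits →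
      (p : ℤ) ∣ ord Q.ring δ := by
    intro z hz Q hQ
    refine hdvd Q z hQ ?_
    intro h0
    apply hz
    rw [Multiset.mem_toFinset, mem_roots hbad0]
    exact h0
  obtain ⟨g₁, g₂, hg₁, hg₂, hr₁, hr₂, hA₁, hA₂, hq, hor⟩ := _root_.UL.exists_pair_roots hFM htM hD cf hcf hcf0 rt
    hrt htop (s := e) hp.pos bad.roots.toFinset
    ((Multiset.toFinset_card_le _).trans ((card_roots' bad).trans hbadd)) hδ hdiv
  obtain ⟨χ₁, hχ₁1, hχ₁2, hχ₁3, hχ₁4, hχ₁5⟩ := _root_.UL.exists_chi hFM htM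
    (mul_ne_zero hδ (pow_ne_zero p hg₁)) hr₁ hA₁
  obtain ⟨χ₂, hχ₂1, hχ₂2, hχ₂3, hχ₂4, hχ₂5⟩ := _root_.UL.exists_chi hFM htM
    (mul_ne_zero hδ (pow_ne_zero p hg₂)) hr₂ hA₂
  have hle1 : Module.finrank κ⟮tM⟯ M * (p * N) ≤ B₀ := by
    have := Nat.mul_le_mul_right (p * N) hrank
    omega
  have hle2 : Module.finrank κ⟮tM⟯ M ≤ B₀ := by omega
  -- coordinates of `g₁`
  have hG : ∃ G : (Fin 3 → Fin D) → M, (∀ β, G β ∈ κ⟮tM⟯) ∧
      g₁ = ∑ β, G β * ∏ j, rt j ^ (β j : ℕ) := by
    have h1 : g₁ ∈ Submodule.span κ⟮tM⟯ (Set.range fun b : Fin 3 → Fin D =>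
        ∏ j, rt j ^ (b j : ℕ)) := by rw [hspan]; trivial
    rw [Submodule.mem_span_range_iff_exists_fun] at h1
    obtain ⟨c, hc⟩ := h1
    refine ⟨fun β => (c β : κ⟮tM⟯), fun β => Subtype.coe_prop _, ?_⟩
    rw [← hc]
    refine Finset.sum_congr rfl fun β _ => ?_
    rw [Algebra.smul_def]
    rfl
  obtain ⟨G, hG1, hG2⟩ := hG
  obtain ⟨c, hc, hceq, hcv⟩ := _root_.UL.exists_coeffs (B := B₀ + 1) hχ₁1 (hχ₁2.trans (by omega))
    (fun i => (hχ₁3 i).trans (hle1.trans (Nat.le_succ _))) hχ₁4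
  obtain ⟨c', hc', hceq', hcv'⟩ := _root_.UL.exists_coeffs (B := B₀ + 1) hχ₂1 (hχ₂2.trans (by omega))
    (fun i => (hχ₂3 i).trans (hle1.trans (Nat.le_succ _))) hχ₂4
  have e1 : ((δ * g₁ ^ p : M) : C) = (z i j * (g₁ : C)) ^ p := by
    rw [mul_pow]; rfl
  have e2 : ((δ * g₂ ^ p : M) : C) = (z i j * (g₁ : C) * ((g₂ / g₁ : M) : C)) ^ p := by
    have h1 : (g₁ : C) * ((g₂ / g₁ : M) : C) = (g₂ : C) := by
      have h2 : g₁ * (g₂ / g₁) = g₂ := mul_div_cancel₀ g₂ hg₁
      exact congrArg Subtype.val h2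
    rw [mul_assoc, h1, mul_pow]; rfl
  have hrtC : (fun j => (rt j : C)) = ![ϑ, θ i, θ j] := by
    funext l
    fin_cases l <;> rfl
  refine ⟨(g₁ : C), ((g₂ / g₁ : M) : C), fun β => (G β : C), c, c', ?_, ?_, ?_, ?_, ?_, ?_, hc, hc',
    ?_, ?_, ?_⟩
  · intro h; exact hg₁ (Subtype.ext h)
  · intro h; exact div_ne_zero hg₂ hg₁ (Subtype.ext h)
  · intro β
    have h1 : (κ⟮tM⟯ : IntermediateField κ M).toSubfield ≤
        (Subfield.closure ((κ : Set C) ∪ {T'})).comap M.val.toRingHom := by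
      rw [IntermediateField.adjoin_toSubfield, Subfield.closure_le]
      rintro x (⟨y, rfl⟩ | hx)
      · exact Subfield.subset_closure (Or.inl y.2)
      · rw [Set.mem_singleton_iff.mp hx]
        exact Subfield.subset_closure (Or.inr rfl)
    exact h1 (hG1 β)
  · have h1 := congrArg (M.val : M → C) hG2
    change (g₁ : C) = _ at h1
    rw [h1, map_sum, ← hrtC]
    refine Finset.sum_congr rfl fun β _ => ?_
    rw [map_mul, map_prod]
    rfl
  · rw [← e1, ← hrtC]
    exact cpxR_of_coords (N := _root_.UL.bndC 3 D m' (p * N)) (by omega)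
      (_root_.UL.exists_coords_roots hFM htM hD cf hcf hcf0 rt hrt htop _ hA₁)
  · rw [← hrtC]
    exact cpxR_of_coords (N := _root_.UL.bndC 3 D m' N) (by omega)
      (_root_.UL.exists_coords_roots hFM htM hD cf hcf hcf0 rt hrt htop _ hq)
  · rw [← e1]; exact hceq
  · rw [← e2]; exact hceq'
  · intro t₀ ht₀ hgood i hi
    obtain ⟨hl, r, hr, hrκ, hrr⟩ := hgood
    let s₀ : κ := ⟨t₀, ht₀⟩
    have hb : bad.eval s₀ ≠ 0 := by
      have h2 := _root_.UL.fam_map A (RingHom.id κ) s₀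
      have h3 := _root_.UL.RR_map d f (eval₂RingHom (RingHom.id κ) s₀)
      rw [h2] at h3
      have h4 : bad.eval s₀ = _root_.UL.RR d
          (_root_.UL.spec fun i => ∑ l, RingHom.id κ (A i l) * s₀ ^ (l : ℕ)) := h3.symm
      rw [h4]
      refine _root_.UL.RR_spec_ne_zero (by omega) ?_ (r := fun j => ⟨r j, hrκ j⟩) ?_ ?_
      · intro h
        apply hl
        have h5 := congrArg (κ.subtype) h
        rw [map_sum, map_zero] at h5
        rw [← h5]
        refine Finset.sum_congr rfl fun l _ => ?_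
        rw [map_mul, map_pow]
        rfl
      · intro j j' h
        exact hr (congrArg Subtype.val h)
      · intro j
        apply κ.subtype.injective
        rw [map_sum, map_zero, ← hrr j]
        refine Finset.sum_congr rfl fun i _ => ?_
        rw [map_mul, map_sum, map_pow]
        rfl
    have ht₀S : s₀ ∉ bad.roots.toFinset := by
      intro h
      rw [Multiset.mem_toFinset, mem_roots hbad0] at h
      exact hb h
    rcases hor s₀ ht₀S with h | h
    · exact Or.inl (hcv s₀ (hχ₁5 s₀ h) i hi)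
    · exact Or.inr (hcv' s₀ (hχ₂5 s₀ h) i hi)

end Pool.Agent.TD
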