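import Pool.Agent.Helper37.UL.StubF
import Pool.Agent.Helper37.UL.Germ4

/-!
# Bounded data for Kummer classes of a field generated by several roots
-/

universe u v w

namespace Pool.Agent.TD

open Pool.Agent.Helper37.UL

/-- `h` is an element of `κ(t, v 0, …)` of complexity at most `B`. -/
def CpxR {C : Type u} [Field C] (κ : Subfield C) (D B : ℕ) {r : ℕ} (t : C) (v : Fin r → C)
    (h : C) : Prop :=
  ∃ (n : (Fin r → Fin D) → Fin (B + 1) → C) (q : Fin (B + 1) → C), (∀ β l, n β l ∈ κ) ∧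
    (∀ l, q l ∈ κ) ∧ q ≠ 0 ∧ (∑ l, q l * t ^ (l : ℕ)) * h =
      ∑ β, (∑ l, n β l * t ^ (l : ℕ)) * ∏ j, v j ^ (β j : ℕ)

/-- Bounded data for the Kummer class of `w ^ p`. -/
def DataR {C : Type u} [Field C] (κ Kg : Subfield C) (t : C) (D d p B : ℕ) {m r : ℕ}
    (a : Fin (d + 1) → Fin (m + 1) → C) (v : Fin r → C) (w : C) : Prop :=
  ∃ (g s : C) (G : (Fin r → Fin D) → C) (c e : Fin B → Fin (B + 1) → C),
    g ≠ 0 ∧ s ≠ 0 ∧
    (∀ β, G β ∈ Kg) ∧
    g = ∑ β, G β * ∏ j, v j ^ (β j : ℕ) ∧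
    CpxR κ D B t v ((w * g) ^ p) ∧ CpxR κ D B t v s ∧
    (∀ i l, c i l ∈ κ) ∧ (∀ i l, e i l ∈ κ) ∧
    ((w * g) ^ p) ^ B + ∑ i, (∑ l, c i l * t ^ (l : ℕ)) * ((w * g) ^ p) ^ (i : ℕ) = 0 ∧
    ((w * g * s) ^ p) ^ B + ∑ i, (∑ l, e i l * t ^ (l : ℕ)) * ((w * g * s) ^ p) ^ (i : ℕ) = 0 ∧
    ∀ t₀ ∈ κ, Good κ a t₀ → ∀ i : Fin B, (i : ℕ) = 0 →
      ∑ l, c i l * t₀ ^ (l : ℕ) ≠ 0 ∨ ∑ l, e i l * t₀ ^ (l : ℕ) ≠ 0

section up

variable {ι : Type v} {U : Ultrafilter ι} {C : Type u} [Field C] {S : Type w} [Field S]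
  {π : (ι → C) →+* S} (h : UP U π)

include h

theorem up_cpx {κ : Subfield C} {D B r : ℕ} {t : C} {v : ι → Fin r → C} {g : ι → C}
    (hl : ∀ a, CpxR κ D B t (v a) (g a)) :
    CpxR (h.gsub κ) D B (UP.cst π t) (fun j => π fun a => v a j) (π g) := by
  choose n q hn hq hq0 he using hl
  refine ⟨fun β l => π fun a => n a β l, fun l => π fun a => q a l,
    fun β l => ⟨_, fun a => hn a β l, rfl⟩, fun l => ⟨_, fun a => hq a l, rfl⟩, ?_, ?_⟩
  · intro h0
    have h1 : ∀ᶠ a in (U : Filter ι), ∀ l, q a l = 0 := by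
      rw [Filter.eventually_all]
      intro l
      exact (h.eq0 _).mp (congrFun h0 l)
    obtain ⟨a, ha⟩ := h1.exists
    exact hq0 a (funext ha)
  · have h2 : π ((∑ l : Fin (B + 1), (fun a => q a l) * (fun _ => t) ^ (l : ℕ)) * g) =
        π (∑ β : Fin r → Fin D, (∑ l : Fin (B + 1), (fun a => n a β l) *
          (fun _ => t) ^ (l : ℕ)) * ∏ j, (fun a => v a j) ^ (β j : ℕ)) := by
      congr 1
      funext a
      simp only [Finset.sum_apply, Pi.mul_apply, Pi.pow_apply, Finset.prod_apply]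
      exact he a
    simp only [map_sum, map_mul, map_pow, map_prod] at h2
    exact h2

/-- transfer of bounded data -/
theorem up_data {κ Kg : Subfield C} {t : C} {D d p B m r : ℕ}
    {c : ι → Fin (d + 1) → Fin (m + 1) → C}
    {v : ι → Fin r → C} {w : ι → C} (hl : ∀ a, DataR κ Kg t D d p B (c a) (v a) (w a)) :
    DataR (h.gsub κ) (h.gsub Kg) (UP.cst π t) D d p B (fun i l => π fun a => c a i l)
      (fun j => π fun a => v a j) (π w) := by
  choose g r G u e hg hr hG hgG hA hR hu he hχ hχ' hgood using hl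
  refine ⟨π g, π r, fun β => π fun a => G a β, fun i l => π fun a => u a i l,
    fun i l => π fun a => e a i l, ?_, ?_, fun β => ⟨_, fun a => hG a β, rfl⟩, ?_, ?_, ?_,
    fun i l => ⟨_, fun a => hu a i l, rfl⟩, fun i l => ⟨_, fun a => he a i l, rfl⟩, ?_, ?_, ?_⟩
  · rw [h.ne0]
    filter_upwards with a using hg a
  · rw [h.ne0]
    filter_upwards with a using hr a
  · have h2 : π g = π (∑ β : Fin _ → Fin D, (fun a => G a β) *
        ∏ j, (fun a => v a j) ^ (β j : ℕ)) := by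
      congr 1
      funext a
      simp only [Finset.sum_apply, Pi.mul_apply, Pi.pow_apply, Finset.prod_apply]
      exact hgG a
    simp only [map_sum, map_mul, map_pow, map_prod] at h2
    exact h2
  · have := up_cpx h (g := (w * g) ^ p) hA
    rwa [map_pow, map_mul] at this
  · exact up_cpx h hR
  · have h2 : π (((w * g) ^ p) ^ B + ∑ i : Fin B, (∑ l : Fin (B + 1), (fun a => u a i l) *
        (fun _ => t) ^ (l : ℕ)) * ((w * g) ^ p) ^ (i : ℕ)) = 0 := by
      rw [h.eq0]
      filter_upwards with a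
      simp only [Finset.sum_apply, Pi.mul_apply, Pi.pow_apply, Pi.add_apply]
      exact hχ a
    simp only [map_sum, map_mul, map_pow, map_add] at h2
    exact h2
  · have h2 : π (((w * g * r) ^ p) ^ B + ∑ i : Fin B, (∑ l : Fin (B + 1), (fun a => e a i l) *
        (fun _ => t) ^ (l : ℕ)) * ((w * g * r) ^ p) ^ (i : ℕ)) = 0 := by
      rw [h.eq0]
      filter_upwards with a
      simp only [Finset.sum_apply, Pi.mul_apply, Pi.pow_apply, Pi.add_apply]
      exact hχ' a
    simp only [map_sum, map_mul, map_pow, map_add] at h2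
    exact h2
  · rintro _ ⟨t₀, ht₀, rfl⟩ ⟨hg1, ρ, hρi, hρκ, hρ⟩ i hi
    obtain ⟨s, hs, hsρ⟩ := h.lift_family hρκ
    have e1 : ∀ᶠ a in (U : Filter ι), ∑ l, c a (Fin.last d) l * t₀ a ^ (l : ℕ) ≠ 0 := by
      have h2 : π (∑ l : Fin (m + 1), (fun a => c a (Fin.last d) l) * t₀ ^ (l : ℕ)) ≠ 0 := by
        simp only [map_sum, map_mul, map_pow]
        exact hg1
      rw [h.ne0] at h2
      filter_upwards [h2] with a ha
      simpa only [Finset.sum_apply, Pi.mul_apply, Pi.pow_apply] using ha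
    have e2 : ∀ᶠ a in (U : Filter ι), ∀ j : Fin d,
        ∑ i, (∑ l, c a i l * t₀ a ^ (l : ℕ)) * s j a ^ (i : ℕ) = 0 := by
      rw [Filter.eventually_all]
      intro j
      have h2 : π (∑ i : Fin (d + 1), (∑ l : Fin (m + 1), (fun a => c a i l) * t₀ ^ (l : ℕ)) *
          s j ^ (i : ℕ)) = 0 := by
        simp only [map_sum, map_mul, map_pow, hsρ]
        exact hρ j
      rw [h.eq0] at h2
      filter_upwards [h2] with a ha
      simpa only [Finset.sum_apply, Pi.mul_apply, Pi.pow_apply] using ha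
    have e3 : ∀ᶠ a in (U : Filter ι), ∀ j j' : Fin d, j ≠ j' → s j a ≠ s j' a := by
      rw [Filter.eventually_all]
      intro j
      rw [Filter.eventually_all]
      intro j'
      by_cases hjj : j = j'
      · filter_upwards with a h3 using absurd hjj h3
      · have h2 : π (s j) ≠ π (s j') := by
          rw [hsρ, hsρ]
          exact fun h3 => hjj (hρi h3)
        rw [h.ne_iff] at h2
        filter_upwards [h2] with a ha _ using ha
    have e4 : ∀ᶠ a in (U : Filter ι), (∑ l, u a i l * t₀ a ^ (l : ℕ) ≠ 0 ∨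
        ∑ l, e a i l * t₀ a ^ (l : ℕ) ≠ 0) := by
      filter_upwards [e1, e2, e3] with a h1 h2 h3
      refine hgood a (t₀ a) (ht₀ a) ⟨h1, fun j => s j a, ?_, fun j => hs j a, h2⟩ i hi
      intro j j' hjj
      by_contra hne
      exact h3 j j' hne hjj
    rw [Ultrafilter.eventually_or] at e4
    rcases e4 with e4 | e4
    · left
      have h2 : π (∑ l : Fin (B + 1), (fun a => u a i l) * t₀ ^ (l : ℕ)) ≠ 0 := by
        rw [h.ne0]
        filter_upwards [e4] with a ha
        simpa only [Finset.sum_apply, Pi.mul_apply, Pi.pow_apply] using ha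
      simp only [map_sum, map_mul, map_pow] at h2
      exact h2
    · right
      have h2 : π (∑ l : Fin (B + 1), (fun a => e a i l) * t₀ ^ (l : ℕ)) ≠ 0 := by
        rw [h.ne0]
        filter_upwards [e4] with a ha
        simpa only [Finset.sum_apply, Pi.mul_apply, Pi.pow_apply] using ha
      simp only [map_sum, map_mul, map_pow] at h2
      exact h2

end up

end Pool.Agent.TD
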