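import Pool.Agent.Helper13.TD.DXR
import Pool.Agent.Helper37.TH.Split
import Pool.Agent.Helper10.UL.BadPoly

/-!
# Choice of the coordinate and of the generator of a function field of one variable
-/

universe u

namespace Pool.Agent.TD

open Polynomial IntermediateField

/-- A polynomial over `F[T]` which is separable over `F(T)` is separable at some value of `T`. -/
theorem exists_good_value {F K : Type u} [Field F] [CharZero F] [Field K] [CharZero K]
    [Algebra F[X] K] {P : F[X][X]} (hP : P.Monic)
    (hsep : (P.map (algebraMap F[X] K)).Separable) :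
    ∃ c : F, (P.map (evalRingHom c)).Separable := by
  have hinf : Infinite F := inferInstance
  by_cases he : 2 ≤ P.natDegree
  · have h1 : UL.RR P.natDegree (P.map (algebraMap F[X] K)) ≠ 0 := by
      rw [UL.RR_ne_zero_iff he (natDegree_map_le)]
      exact ⟨hP.natDegree_map _, hsep⟩
    rw [UL.RR_map] at h1
    have h2 : UL.RR P.natDegree P ≠ 0 := fun h => h1 (by rw [h, map_zero])
    obtain ⟨c, hc⟩ : ∃ c : F, (UL.RR P.natDegree P).eval c ≠ 0 := by
      by_contra hcon
      push Not at hcon
      exact h2 (Polynomial.funext fun c => by rw [hcon c, eval_zero])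
    refine ⟨c, ?_⟩
    have h3 : UL.RR P.natDegree (P.map (evalRingHom c)) ≠ 0 := by
      rw [UL.RR_map]
      exact hc
    exact ((UL.RR_ne_zero_iff he natDegree_map_le).1 h3).2
  · refine ⟨0, ?_⟩
    have hm := hP.map (evalRingHom (0 : F))
    have hd : (P.map (evalRingHom (0 : F))).natDegree = P.natDegree := hP.natDegree_map _
    rcases Nat.lt_or_ge P.natDegree 1 with h | h
    · have h1 : P.map (evalRingHom (0 : F)) = 1 :=
        hm.natDegree_eq_zero.1 (by omega)
      rw [h1]
      exact separable_one
    · have h1 : (P.map (evalRingHom (0 : F))).natDegree = 1 := by omega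
      have h2 : P.map (evalRingHom (0 : F)) =
          X + C ((P.map (evalRingHom (0 : F))).coeff 0) := by
        conv_lhs => rw [Polynomial.eq_X_add_C_of_natDegree_le_one h1.le]
        have h3 : (P.map (evalRingHom (0 : F))).coeff 1 = 1 := by
          have := hm.coeff_natDegree
          rwa [h1] at this
        rw [h3, C_1, one_mul]
      rw [h2]
      exact separable_X_add_C _

theorem exists_splitAt {F k C : Type u} [Field F] [CharZero F] [Field k] [Algebra F k] [Field C]
    [Algebra k C] [IsAlgClosure k C] [Algebra F C] [IsScalarTower F k C]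
    {T : k} (hT : Transcendental F T) {ϑ : k} (hϑ : IsAlgebraic (IntermediateField.adjoin F {T}) ϑ)
    (htop : IntermediateField.adjoin F {T, ϑ} = ⊤)
    (κ : Subfield C) (hκ : ∀ c : C, c ∈ κ ↔ IsAlgebraic F c) :
    ∃ (c : F) (q : k), IntermediateField.adjoin F {T, q} = ⊤ ∧
      TH.SplitAt κ (algebraMap k C (T - algebraMap F k c)) (algebraMap k C q) := by
  classical
  have hk0 : CharZero k := charZero_of_injective_algebraMap (algebraMap F k).injective
  have hcl : IsAlgClosed κ := kappa_closed_one k hκ
  have hFκ : ∀ c : F, algebraMap F C c ∈ κ := fun c => (hκ _).2 (isAlgebraic_algebraMap c)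
  let φ : F →+* κ := (algebraMap F C).codRestrict κ.toSubring hFκ
  have hφ : ∀ c, ((φ c : κ) : C) = algebraMap F C c := fun _ => rfl
  have htr := transcendental_iff_injective.1 hT
  let _ : Algebra F[X] k := (aeval T : F[X] →ₐ[F] k).toRingHom.toAlgebra
  have hAk : ∀ a : F[X], algebraMap F[X] k a = aeval T a := fun _ => rfl
  have hinj : Function.Injective (algebraMap F[X] k) := htr
  let K := FractionRing F[X]
  let _ : Algebra K k := (IsFractionRing.lift hinj : K →+* k).toAlgebra
  have hst : IsScalarTower F[X] K k := IsScalarTower.of_algebraMap_eq fun a =>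
    (IsFractionRing.lift_algebraMap hinj a).symm
  have hϑA : IsAlgebraic F[X] ϑ := by
    obtain ⟨b, hb, hb0⟩ := exists_poly_rel hT hϑ
    exact ⟨b, hb, hb0⟩
  obtain ⟨y, hy, hqint⟩ := hϑA.exists_integral_multiple
  rw [Algebra.smul_def] at hqint
  obtain ⟨q, hqy⟩ : ∃ q : k, ϑ * algebraMap F[X] k y = q := ⟨_, rfl⟩
  rw [mul_comm, hqy] at hqint
  set P := minpoly F[X] q with hPdef
  have hPm : P.Monic := minpoly.monic hqint
  have hPK : minpoly K q = P.map (algebraMap F[X] K) :=
    minpoly.isIntegrallyClosed_eq_field_fractions' K hqint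
  have hKc : CharZero K := charZero_of_injective_algebraMap
    (R := F) (A := K) (by
      have h1 : Function.Injective ((algebraMap F[X] K).comp (Polynomial.C : F →+* F[X])) :=
        (IsFractionRing.injective F[X] K).comp C_injective
      exact RingHom.injective _)
  have hsep : (P.map (algebraMap F[X] K)).Separable := by
    rw [← hPK]
    exact (minpoly.irreducible hqint.tower_top).separable
  obtain ⟨c, hc⟩ := exists_good_value hPm hsep
  have hy0 : aeval T y ≠ 0 := by
    rw [← hAk]
    exact (map_ne_zero_iff _ hinj).2 hy
  refine ⟨c, q, ?_, ?_⟩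
  · rw [eq_top_iff, ← htop, IntermediateField.adjoin_le_iff]
    have hTm : T ∈ IntermediateField.adjoin F {T, q} := IntermediateField.subset_adjoin _ _ (by simp)
    have hqm : q ∈ IntermediateField.adjoin F {T, q} := IntermediateField.subset_adjoin _ _ (by simp)
    rintro x (rfl | hx)
    · exact hTm
    · rw [Set.mem_singleton_iff.1 hx]
      have h1 : ϑ = q / aeval T y := by
        rw [eq_div_iff hy0, ← hAk, hqy]
      rw [h1]
      refine div_mem hqm ?_
      rw [aeval_eq_sum_range]
      refine sum_mem fun i _ => ?_
      rw [Algebra.smul_def]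
      exact mul_mem (IntermediateField.algebraMap_mem _ _) (pow_mem hTm _)
  · -- the roots
    let Pc : κ[X] := (P.map (evalRingHom c)).map φ
    have hPcm : Pc.Monic := (hPm.map _).map _
    have hPcd : Pc.natDegree = P.natDegree := by
      rw [(hPm.map _).natDegree_map, hPm.natDegree_map]
    have hPcs : Pc.Separable := hc.map
    have hcard : Pc.roots.toFinset.card = P.natDegree := by
      rw [Multiset.toFinset_card_of_nodup (nodup_roots hPcs), ← hPcd]
      exact (splits_iff_card_roots.1 (IsAlgClosed.splits Pc))
    let ε : Fin P.natDegree ≃ Pc.roots.toFinset := (Finset.equivFinOfCardEq hcard).symm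
    have hexp : ∀ (R : Type u) [CommRing R] (ψ : F[X] →+* R) (x : R), eval₂ ψ x P =
        x ^ P.natDegree + ∑ i : Fin P.natDegree, ψ (P.coeff i) * x ^ (i : ℕ) := by
      intro R _ ψ x
      rw [eval₂_eq_sum_range, Finset.sum_range_succ, hPm.coeff_natDegree, map_one, one_mul,
        Finset.sum_range, add_comm]
    refine ⟨P.natDegree, fun i => ((P.coeff i).comp (X + Polynomial.C c)).map φ, fun j => (ε j : κ), ?_, ?_, ?_⟩
    · intro a b hab
      exact ε.injective (Subtype.ext hab)
    · intro j
      have h1 := (ε j).2
      rw [Multiset.mem_toFinset, mem_roots hPcm.ne_zero, IsRoot.def] at h1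
      have h2 : eval (ε j : κ) Pc = eval₂ (φ.comp (evalRingHom c)) (ε j : κ) P := by
        rw [eval_map, eval₂_map]
      rw [h2, hexp] at h1
      refine Eq.trans ?_ h1
      congr 1
      refine Finset.sum_congr rfl fun i _ => ?_
      congr 1
      rw [eval_map, eval₂_comp]
      simp only [eval₂_add, eval₂_X, eval₂_C, zero_add, RingHom.comp_apply, coe_evalRingHom]
      rw [eval₂_at_apply]
    · have h1 : eval₂ ((algebraMap k C).comp (algebraMap F[X] k)) (algebraMap k C q) P = 0 := by
        rw [← hom_eval₂]
        have h2 : eval₂ (algebraMap F[X] k) q P = 0 := minpoly.aeval F[X] q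
        rw [h2, map_zero]
      rw [hexp] at h1
      refine Eq.trans ?_ h1
      congr 1
      refine Finset.sum_congr rfl fun i _ => ?_
      congr 1
      rw [aeval_def, eval₂_map, eval₂_comp, RingHom.comp_apply, hAk, aeval_def, hom_eval₂]
      have h3 : (algebraMap κ C).comp φ = (algebraMap k C).comp (algebraMap F k) := by
        refine RingHom.ext fun a => ?_
        change algebraMap F C a = algebraMap k C (algebraMap F k a)
        exact IsScalarTower.algebraMap_apply F k C a
      rw [h3]
      congr 1
      simp only [eval₂_add, eval₂_X, eval₂_C, RingHom.comp_apply, map_sub]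
      ring

end Pool.Agent.TD
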