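import Pool.Agent.Helper10.UL.FinalOne
import Pool.Agent.Helper10.UL.Shift
import Pool.Agent.Helper13.TD.SP
import Pool.Agent.Helper13.TD.NF

/-!
# Curves over a function field of one variable: assembly
-/

universe u

namespace Pool.Agent.TD

open Polynomial Pool.Agent.Helper37.UL Pool.Agent.Helper91.Sect Pool.Agent.HP UL

/-- The coefficients of the curves with sections are thin: a split coordinate. -/
theorem thin_key_split {F k : Type u} [Field F] [CharZero F] [Field k] [Algebra F k]
    (hF : ∃ S : Finset F, Subfield.closure (S : Set F) = ⊤) {T : k} (hT : Transcendental F T)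
    {q : k} (hqa : IsAlgebraic (IntermediateField.adjoin F {T}) q)
    (htop : IntermediateField.adjoin F {T, q} = ⊤)
    (hq : TH.SplitAt (algebraicClosure F (AlgebraicClosure k)).toSubfield
      (algebraMap k (AlgebraicClosure k) T) (algebraMap k (AlgebraicClosure k) q))
    {d m : ℕ} (hd : 3 ≤ d) (hm : 1 ≤ m) {p : ℕ} (hp : p.Prime) (hpd : p ∣ d) :
    IsThin {a : Fin (d + 1) × Fin (m + 1) → F | (curve1 T a).natDegree = d ∧
      (curve1 T a).Separable ∧ SectionP p (curve1 T a)} := by
  classical
  by_contra hcon
  have hk0 : CharZero k := charZero_of_injective_algebraMap (algebraMap F k).injective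
  let J : Type u := {a : Fin (d + 1) × Fin (m + 1) → F // (curve1 T a).natDegree = d ∧
    (curve1 T a).Separable ∧ SectionP p (curve1 T a)}
  let vv : J → Fin (d + 1) × Fin (m + 1) → F := Subtype.val
  have hnt : ¬ IsThin (Set.range vv) := by
    intro h
    apply hcon
    refine h.mono fun a ha => ⟨⟨a, ha⟩, rfl⟩
  let C : Type u := AlgebraicClosure k
  have hC0 : CharZero C := charZero_of_injective_algebraMap (algebraMap k C).injective
  -- level one structures
  have hA : ∀ j : J, ∃ (θ : Fin d → C) (z : Fin d → Fin d → C) (α : C),
      Lev (algebraMap k C).fieldRange p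
        (fun i : Fin (d + 1) => algebraMap k C
          (∑ l : Fin (m + 1), algebraMap F k (vv j (i, l)) * T ^ (l : ℕ))) θ z α ∧
      ∀ V : ValuationSubring C,
        HasPlaces (IsLocalRing.ResidueField (V.comap (algebraMap k C))) →
        ((p : ℕ) : IsLocalRing.ResidueField (V.comap (algebraMap k C))) ≠ 0 →
        GoodAt V (fun i : Fin (d + 1) => algebraMap k C
          (∑ l : Fin (m + 1), algebraMap F k (vv j (i, l)) * T ^ (l : ℕ))) θ →
        ∀ σ : C ≃+* C, Inert (algebraMap k C).fieldRange V σ →
          ∀ i j, i ≠ j → σ (z i j) = z i j := by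
    rintro ⟨a, h1, h2, K, _, _, x, y, hx, hxy, ⟨s⟩⟩
    obtain ⟨θ, z, α, h3, h4⟩ := exists_lev hp hpd hd h2 h1 hx hxy s C
    simp only [coeff_curve1] at h3 h4
    exact ⟨θ, z, α, h3, h4⟩
  choose θ z α hlev hin using hA
  let κ : Subfield C := (algebraicClosure F C).toSubfield
  have hκ : ∀ c : C, c ∈ κ ↔ IsAlgebraic F c := fun c => mem_algebraicClosure_iff
  obtain ⟨D, B, -, -, hB⟩ := exists_dataR (C := C) hF hT hqa htop κ hκ d m p hp hd
  have hTκ : AlgebraicIndependent κ ![algebraMap k C T] := by
    rw [algebraicIndependent_unique_type_iff]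
    exact kappa_transc_one hκ hT
  have hle : (algebraMap k C).fieldRange ≤ Subfield.closure
      ((gen (algebraMap F C).fieldRange ![algebraMap k C T] : Set C) ∪ {algebraMap k C q}) := by
    rintro _ ⟨x, rfl⟩
    have h1 : (IntermediateField.adjoin F {T, q} : IntermediateField F k).toSubfield ≤
        (Subfield.closure ((gen (algebraMap F C).fieldRange ![algebraMap k C T] : Set C) ∪
          {algebraMap k C q})).comap (algebraMap k C) := by
      rw [IntermediateField.adjoin_toSubfield, Subfield.closure_le]
      rintro x (⟨y, rfl⟩ | rfl | hx)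
      · exact Subfield.subset_closure (Or.inl (le_gen ⟨y, IsScalarTower.algebraMap_apply F k C y⟩))
      · exact Subfield.subset_closure (Or.inl (gen_mem (τ := ![algebraMap k C x]) 0))
      · rw [Set.mem_singleton_iff.mp hx]
        exact Subfield.subset_closure (Or.inr rfl)
    rw [htop] at h1
    exact h1 (Subfield.mem_top x)
  have hcl : Subfield.closure ((κ : Set C) ∪ {algebraMap k C T}) =
      gen κ ![algebraMap k C T] := by
    unfold gen
    rw [Matrix.range_cons, Matrix.range_empty, Set.union_empty]
  have hmap : ∀ c : F, algebraMap k C (algebraMap F k c) = algebraMap F C c := fun c =>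
    (IsScalarTower.algebraMap_apply F k C c).symm
  -- `q` is algebraic over `F (T)`
  have hFT : (IntermediateField.adjoin F {T} : IntermediateField F k).toSubfield ≤
      (gen (algebraMap F C).fieldRange ![algebraMap k C T]).comap (algebraMap k C) := by
    rw [IntermediateField.adjoin_toSubfield, Subfield.closure_le]
    rintro x (⟨y, rfl⟩ | hx)
    · exact le_gen ⟨y, IsScalarTower.algebraMap_apply F k C y⟩
    · rw [Set.mem_singleton_iff.mp hx]
      exact gen_mem (τ := ![algebraMap k C T]) 0
  let ι : IntermediateField.adjoin F {T} →+* gen (algebraMap F C).fieldRange ![algebraMap k C T] :=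
    ((algebraMap k C).comp (algebraMap (IntermediateField.adjoin F {T}) k)).codRestrict
      (gen (algebraMap F C).fieldRange ![algebraMap k C T]).toSubring (fun x => hFT x.2)
  have hqC : IsAlgebraic (gen (algebraMap F C).fieldRange ![algebraMap k C T])
      (algebraMap k C q) := by
    obtain ⟨P, hP0, hP⟩ := hqa
    refine ⟨P.map ι, ?_, ?_⟩
    · exact (Polynomial.map_ne_zero_iff ι.injective).2 hP0
    · have h1 := congrArg (algebraMap k C) hP
      rw [aeval_def, hom_eval₂, map_zero] at h1
      rw [aeval_def, eval₂_map]
      exact h1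
  have halg : ∀ x : C, IsAlgebraic (gen (algebraMap F C).fieldRange ![algebraMap k C T]) x := by
    intro x
    have h1 : IsAlgebraic k x := (IsAlgClosure.isAlgebraic (R := k) (K := C)).isAlgebraic x
    have h2 : IsAlgebraic (Subfield.closure ((gen (algebraMap F C).fieldRange
        ![algebraMap k C T] : Set C) ∪ {algebraMap k C q})) x := by
      refine isAlgebraic_mono hle ?_
      obtain ⟨P, hP0, hP⟩ := h1
      refine ⟨P.map (algebraMap k C).rangeRestrictField, ?_, ?_⟩
      · exact (Polynomial.map_ne_zero_iff (algebraMap k C).rangeRestrictField.injective).2 hP0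
      · rw [← hP, aeval_def, eval₂_map]
        rfl
    have h3 : (IntermediateField.adjoin (gen (algebraMap F C).fieldRange ![algebraMap k C T])
        {algebraMap k C q}).toSubfield = Subfield.closure ((gen (algebraMap F C).fieldRange
        ![algebraMap k C T] : Set C) ∪ {algebraMap k C q}) := by
      rw [IntermediateField.adjoin_toSubfield]
      congr 2
      ext y
      constructor
      · rintro ⟨z, rfl⟩
        exact z.2
      · intro hy
        exact ⟨⟨y, hy⟩, rfl⟩
    have h4 : IsAlgebraic (IntermediateField.adjoin (gen (algebraMap F C).fieldRange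
        ![algebraMap k C T]) {algebraMap k C q}) x := by
      rw [← h3] at h2
      exact h2
    have h5 : Algebra.IsAlgebraic (gen (algebraMap F C).fieldRange ![algebraMap k C T])
        (IntermediateField.adjoin (gen (algebraMap F C).fieldRange
        ![algebraMap k C T]) {algebraMap k C q}) :=
      IntermediateField.isAlgebraic_adjoin_simple hqC.isIntegral
    exact (isIntegral_trans (R := gen (algebraMap F C).fieldRange ![algebraMap k C T])
      (A := IntermediateField.adjoin (gen (algebraMap F C).fieldRange
        ![algebraMap k C T]) {algebraMap k C q}) _ h4.isIntegral).isAlgebraic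
  refine TH.no_family_theta (F := F) (C := C) (J := J) (D := D) (B := B) hp hd hm hnt (κ := κ)
    (fun x => ?_) hTκ (q := algebraMap k C q) hq halg (θ := θ) (z := z) (α := α) (fun j => ?_)
    (fun j i i' hii => ?_)
  · rw [hκ, isAlgebraic_range_iff]
  · have h1 := (hlev j).mono hle
    simpa only [map_sum, map_mul, map_pow, hmap] using h1
  · have h1 := hB (fun i l => vv j (i, l)) (hlev j) (hin j) i i' hii
    rw [hcl] at h1
    exact h1

/-- The coefficients of the curves with sections are thin. -/
theorem thin_key_theta {F k : Type u} [Field F] [CharZero F] [Field k] [Algebra F k]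
    (hF : ∃ S : Finset F, Subfield.closure (S : Set F) = ⊤) {T : k} (hT : Transcendental F T)
    [FiniteDimensional (IntermediateField.adjoin F {T}) k] {ϑ : k}
    (htop : IntermediateField.adjoin F {T, ϑ} = ⊤) {d m : ℕ} (hd : 3 ≤ d) (hm : 1 ≤ m) {p : ℕ}
    (hp : p.Prime) (hpd : p ∣ d) :
    IsThin {a : Fin (d + 1) × Fin (m + 1) → F | (curve1 T a).natDegree = d ∧
      (curve1 T a).Separable ∧ SectionP p (curve1 T a)} := by
  have hϑ : IsAlgebraic (IntermediateField.adjoin F {T}) ϑ := Algebra.IsAlgebraic.isAlgebraic ϑ
  obtain ⟨c, q, hq, hs⟩ := exists_splitAt (C := AlgebraicClosure k) hT hϑ htop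
    (algebraicClosure F (AlgebraicClosure k)).toSubfield (fun c => mem_algebraicClosure_iff)
  have hT' : Transcendental F (T - algebraMap F k c) := by
    intro h
    apply hT
    have h1 := h.add (isAlgebraic_algebraMap (A := k) c)
    rwa [sub_add_cancel] at h1
  have h1 : ∀ y : k, IntermediateField.adjoin F {T, y} =
      IntermediateField.adjoin F {T - algebraMap F k c, y} := by
    intro y
    apply le_antisymm
    · rw [IntermediateField.adjoin_le_iff]
      rintro x (rfl | hx)
      · have h2 : x - algebraMap F k c ∈
          IntermediateField.adjoin F {x - algebraMap F k c, y} :=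
          IntermediateField.subset_adjoin _ _ (by simp)
        have h3 := add_mem h2 (IntermediateField.algebraMap_mem
          (IntermediateField.adjoin F {x - algebraMap F k c, y}) c)
        rwa [sub_add_cancel] at h3
      · exact IntermediateField.subset_adjoin _ _ (Or.inr hx)
    · rw [IntermediateField.adjoin_le_iff]
      rintro x (rfl | hx)
      · exact sub_mem (IntermediateField.subset_adjoin _ _ (by simp))
          (IntermediateField.algebraMap_mem _ c)
      · exact IntermediateField.subset_adjoin _ _ (Or.inr hx)
  have h2 : IntermediateField.adjoin F {T} ≤ IntermediateField.adjoin F {T - algebraMap F k c} := by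
    rw [IntermediateField.adjoin_le_iff]
    rintro x hx
    rw [Set.mem_singleton_iff.1 hx]
    have h2 : T - algebraMap F k c ∈ IntermediateField.adjoin F {T - algebraMap F k c} :=
      IntermediateField.mem_adjoin_simple_self _ _
    have h3 := add_mem h2 (IntermediateField.algebraMap_mem
      (IntermediateField.adjoin F {T - algebraMap F k c}) c)
    rwa [sub_add_cancel] at h3
  have hqa : IsAlgebraic (IntermediateField.adjoin F {T}) q := Algebra.IsAlgebraic.isAlgebraic q
  have hqa' : IsAlgebraic (IntermediateField.adjoin F {T - algebraMap F k c}) q :=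
    isAlgebraic_mono (K := (IntermediateField.adjoin F {T}).toSubfield)
      (K' := (IntermediateField.adjoin F {T - algebraMap F k c}).toSubfield) h2 hqa
  refine ((thin_key_split hF hT' hqa' ((h1 q).symm.trans hq) hs hd hm hp hpd).shift c).mono ?_
  intro a ha
  rw [Set.mem_ofPred_eq, Set.mem_ofPred_eq, curve1_shift]
  exact ha

/-- **No sections outside a thin set.** -/
theorem no_sections_theta {F k : Type u} [Field F] [CharZero F] [Field k] [Algebra F k]
    (hF : ∃ S : Finset F, Subfield.closure (S : Set F) = ⊤) {T : k} (hT : Transcendental F T)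
    [FiniteDimensional (IntermediateField.adjoin F {T}) k] {d m : ℕ} (hd : 3 ≤ d) (hm : 1 ≤ m) :
    IsThin {a : Fin (d + 1) × Fin (m + 1) → F | ¬ HasNoSections d (curve1 T a)} := by
  classical
  have hk0 : CharZero k := charZero_of_injective_algebraMap (algebraMap F k).injective
  have hL0 : CharZero (IntermediateField.adjoin F {T}) :=
    charZero_of_injective_algebraMap (algebraMap F (IntermediateField.adjoin F {T})).injective
  obtain ⟨ϑ, h1⟩ := Field.exists_primitive_element (IntermediateField.adjoin F {T}) k
  have htop : IntermediateField.adjoin F {T, ϑ} = ⊤ := by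
    have h2 := congrArg (IntermediateField.restrictScalars F) h1
    rw [IntermediateField.restrictScalars_top, IntermediateField.adjoin_adjoin_left,
      Set.singleton_union] at h2
    exact h2
  refine ((thin_not_separable (m := m) hT hd).union (IsThin.biUnion d.primeFactors
    fun p hp => thin_key_theta hF hT htop hd hm (Nat.prime_of_mem_primeFactors hp)
      (Nat.dvd_of_mem_primeFactors hp))).mono ?_
  intro a ha
  by_cases h1 : (curve1 T a).natDegree = d ∧ (curve1 T a).Separable
  · right
    by_contra hne
    apply ha
    refine hasNoSections_of h1.1 h1.2 fun p hp hpd hs => hne ?_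
    rw [Set.mem_iUnion₂]
    exact ⟨p, Nat.mem_primeFactors.mpr ⟨hp, hpd, by omega⟩, h1.1, h1.2, hs⟩
  · exact Or.inl h1

end Pool.Agent.TD
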